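import Pool.Agent.H567R2.MMF.MA
import Pool.Agent.H567R2.MN.Defs

/-! E2: elimination and measurability (helper415). -/

namespace H567MM

open MeasureTheory Filter Topology

theorem E2_aux_cv_add {X R : Type*} [CommRing R] (S : X → X) (φ : X → Rˣ) (m n : ℕ) (x : X) :
    cv S φ (m + n) x = cv S φ m x * cv S φ n (S^[m] x) := by
  unfold cv
  rw [H567MM.coc_add, Units.val_mul]

theorem elim2 {X R M : Type*} [CommRing R] [AddCommGroup M] [Module R M] (S : X → X)
    (φ : X → Rˣ) (x : X) {s : ℕ} (m : Fin s → M) (n : Fin s → ℕ) (r : ℕ) (a : Fin s)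
    (h : ∑ i, cv S φ (n i) x • m i = 0) (h' : ∑ i, cv S φ (n i) (S^[r] x) • m i = 0) :
    ∑ i, cv S φ (n i) x •
      (cv S φ r (S^[n i] x) • m i - cv S φ r (S^[n a] x) • m i) = 0 := by
  have h1 : ∀ i, cv S φ (n i) x • (cv S φ r (S^[n i] x) • m i - cv S φ r (S^[n a] x) • m i) =
      cv S φ r x • (cv S φ (n i) (S^[r] x) • m i) -
        cv S φ r (S^[n a] x) • (cv S φ (n i) x • m i) := by
    intro i
    rw [smul_sub, smul_smul, smul_smul, smul_smul, smul_smul, ← E2_aux_cv_add, add_comm (n i) r,
      E2_aux_cv_add, mul_comm (cv S φ r (S^[n a] x))]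
  rw [Finset.sum_congr rfl fun i _ => h1 i, Finset.sum_sub_distrib, ← Finset.smul_sum,
    ← Finset.smul_sum, h, h', smul_zero, smul_zero, sub_zero]

theorem cv_meas {X R M : Type*} [MeasurableSpace X] [CommRing R] [AddCommGroup M] [Module R M]
    [Countable M] (S : X → X) (hS : Measurable S) (φ : X → Rˣ)
    (hφ : ∀ m m' : M, MeasurableSet {x | (φ x : R) • m = m'}) (n : ℕ) (m m' : M) :
    MeasurableSet {x | cv S φ n x • m = m'} := by
  induction n generalizing m m' with
  | zero =>
    have h : {x : X | cv S φ 0 x • m = m'} = {_x : X | m = m'} := by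
      ext x
      simp only [Set.mem_ofPred_eq, cv, coc, Units.val_one, one_smul]
    rw [h]
    exact MeasurableSet.const _
  | succ n ih =>
    have h : {x : X | cv S φ (n + 1) x • m = m'} =
        ⋃ m'' : M, ((S^[n]) ⁻¹' {x | (φ x : R) • m = m''}) ∩ {x | cv S φ n x • m'' = m'} := by
      ext x
      simp only [Set.mem_iUnion, Set.mem_inter_iff, Set.mem_preimage, Set.mem_ofPred_eq]
      have h1 : cv S φ (n + 1) x • m = cv S φ n x • ((φ (S^[n] x) : R) • m) := by
        unfold cv
        have h2 : coc S φ (n + 1) x = coc S φ n x * φ (S^[n] x) := rfl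
        rw [h2, Units.val_mul, smul_smul]
      rw [h1]
      constructor
      · intro h
        exact ⟨_, rfl, h⟩
      · rintro ⟨m'', h2, h3⟩
        rw [h2]
        exact h3
    rw [h]
    exact MeasurableSet.iUnion fun m'' => ((hS.iterate n) (hφ m m'')).inter (ih m'' m')

end H567MM
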