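import Pool.Agent.H567R2.MMF.MA
import Pool.Agent.H567R2.MN.Defs

/-! GE: the mean ergodic theorem gives an invariant set of finite measure. -/

namespace H567MM

open MeasureTheory Filter Topology

theorem inv_set {Ω κ : Type*} [MeasurableSpace Ω] (P : Measure Ω) [IsProbabilityMeasure P]
    [Countable κ] [MeasurableSpace κ] [DiscreteMeasurableSpace κ] (τ : Ω × κ → Ω × κ)
    (hτ : MeasurePreserving τ (P.prod Measure.count) (P.prod Measure.count)) (q₀ q₁ : κ)
    (c : ℝ) (hc : 0 < c) (h : ∀ N₀ : ℕ, ∃ N ≥ N₀, c * N ≤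
      ∑ n ∈ Finset.range N, P.real {ω | (τ^[n] (ω, q₁)).2 = q₀}) :
    ∃ B : Set (Ω × κ), MeasurableSet B ∧ (P.prod Measure.count) B ≠ ⊤ ∧
      P {ω | (ω, q₀) ∈ B} ≠ 0 ∧ ∀ᵐ ω ∂P, ∀ q : κ, ((ω, q) ∈ B ↔ τ (ω, q) ∈ B) := by
  set m : Measure (Ω × κ) := P.prod Measure.count with hmdef
  have hA : ∀ q : κ, MeasurableSet (Set.univ ×ˢ ({q} : Set κ) : Set (Ω × κ)) := fun q =>
    MeasurableSet.univ.prod (measurableSet_singleton _)
  have hmA : ∀ q : κ, m (Set.univ ×ˢ ({q} : Set κ)) ≠ ⊤ := by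
    intro q
    rw [hmdef, Measure.prod_prod, measure_univ, one_mul, Measure.count_singleton]
    exact ENNReal.one_ne_top
  set U : Lp ℝ 2 m →L[ℝ] Lp ℝ 2 m :=
    (Lp.compMeasurePreservingₗᵢ ℝ τ hτ).toContinuousLinearMap with hU
  have hUn : ‖U‖ ≤ 1 := LinearIsometry.norm_toContinuousLinearMap_le _
  set e : Lp ℝ 2 m := indicatorConstLp 2 (hA q₀) (hmA q₀) (1 : ℝ) with he
  set e' : Lp ℝ 2 m := indicatorConstLp 2 (hA q₁) (hmA q₁) (1 : ℝ) with he'
  have hUc : ∀ f, U f = Lp.compMeasurePreserving τ hτ f := fun f => rfl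
  have hUit : ∀ n : ℕ, (⇑U)^[n] e = Lp.compMeasurePreserving τ^[n] (hτ.iterate n) e := by
    intro n
    rw [← Lp.compMeasurePreserving_iterate hτ n]
    rfl
  have hin : ∀ n : ℕ, inner ℝ e' ((⇑U)^[n] e) = P.real {ω | (τ^[n] (ω, q₁)).2 = q₀} := by
    intro n
    rw [hUit n, he, he', Lp.indicatorConstLp_compMeasurePreserving (hA q₀) (hmA q₀) (1 : ℝ)
        (hτ.iterate n),
      L2.real_inner_indicatorConstLp_one_indicatorConstLp_one (hA q₁)
        ((hA q₀).preimage (hτ.iterate n).measurable) (hmA q₁)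
        (by rw [(hτ.iterate n).measure_preimage (hA q₀).nullMeasurableSet]; exact hmA q₀)]
    have hset : (Set.univ ×ˢ ({q₁} : Set κ)) ∩ τ^[n] ⁻¹' (Set.univ ×ˢ ({q₀} : Set κ)) =
        {ω | (τ^[n] (ω, q₁)).2 = q₀} ×ˢ ({q₁} : Set κ) := by
      ext ⟨ω, g⟩
      simp only [Set.mem_inter_iff, Set.mem_prod, Set.mem_univ, true_and,
        Set.mem_singleton_iff, Set.mem_preimage, Set.mem_ofPred_eq]
      constructor
      · rintro ⟨rfl, h2⟩
        exact ⟨h2, rfl⟩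
      · rintro ⟨h1, rfl⟩
        exact ⟨rfl, h1⟩
    rw [hset, Measure.real, hmdef, Measure.prod_prod, Measure.count_singleton, mul_one]
    rfl
  have hlim := U.tendsto_birkhoffAverage_orthogonalProjection hUn e
  set hp := (U.eqLocus (1 : Lp ℝ 2 m →L[ℝ] Lp ℝ 2 m)).orthogonalProjectionOnto e with hpdef
  have hfix : U (hp : Lp ℝ 2 m) = hp := by
    have := hp.2
    rw [LinearMap.mem_eqLocus] at this
    exact this
  have hlim2 : Tendsto (fun N : ℕ => inner ℝ e' (birkhoffAverage ℝ U _root_.id N e)) atTop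
      (𝓝 (inner ℝ e' (hp : Lp ℝ 2 m))) := tendsto_const_nhds.inner hlim
  have hav : ∀ N : ℕ, inner ℝ e' (birkhoffAverage ℝ U _root_.id N e) =
      (N : ℝ)⁻¹ * ∑ n ∈ Finset.range N, P.real {ω | (τ^[n] (ω, q₁)).2 = q₀} := by
    intro N
    rw [birkhoffAverage, birkhoffSum, inner_smul_right, inner_sum]
    congr 1
    exact Finset.sum_congr rfl fun n _ => hin n
  have hge : c ≤ inner ℝ e' (hp : Lp ℝ 2 m) := by
    refine ge_of_tendsto_of_frequently hlim2 ?_
    rw [Filter.frequently_atTop]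
    intro a
    obtain ⟨N, hN, hcN⟩ := h (a + 1)
    refine ⟨N, by omega, ?_⟩
    have hN0 : (0 : ℝ) < N := by exact_mod_cast (by omega : 0 < N)
    rw [hav N, inv_mul_eq_div, le_div_iff₀ hN0]
    exact hcN
  have hhp0 : (hp : Lp ℝ 2 m) ≠ 0 := by
    intro h0
    rw [h0, inner_zero_right] at hge
    linarith
  have hsq : inner ℝ e (hp : Lp ℝ 2 m) ≠ 0 := by
    have h1 : inner ℝ hp hp = inner ℝ e (hp : Lp ℝ 2 m) :=
      Submodule.inner_orthogonalProjectionOnto_eq_of_mem_right hp e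
    rw [← h1]
    exact inner_self_ne_zero.2 fun h0 => hhp0 (by rw [h0]; rfl)
  set f : Ω × κ → ℝ := ⇑(hp : Lp ℝ 2 m) with hf
  have hfm : StronglyMeasurable f := Lp.stronglyMeasurable _
  have hfL : MemLp f 2 m := Lp.memLp _
  have hfinv : ∀ᵐ z ∂m, f (τ z) = f z := by
    have h1 := Lp.coeFn_compMeasurePreserving (hp : Lp ℝ 2 m) hτ
    rw [← hUc, hfix] at h1
    filter_upwards [h1] with z hz
    exact hz.symm
  have hne : P {ω | f (ω, q₀) ≠ 0} ≠ 0 := by
    intro h0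
    apply hsq
    rw [he, L2.inner_indicatorConstLp_one (hA q₀) (hmA q₀)]
    apply integral_eq_zero_of_ae
    have hms : MeasurableSet {ω | f (ω, q₀) ≠ 0} :=
      (measurableSet_eq_fun (hfm.measurable.comp measurable_prodMk_right) measurable_const).compl
    have h2 : m ({z | f z ≠ 0} ∩ Set.univ ×ˢ ({q₀} : Set κ)) = 0 := by
      have : {z | f z ≠ 0} ∩ Set.univ ×ˢ ({q₀} : Set κ) =
          {ω | f (ω, q₀) ≠ 0} ×ˢ ({q₀} : Set κ) := by
        ext ⟨ω, g⟩
        simp only [Set.mem_inter_iff, Set.mem_prod, Set.mem_univ, true_and,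
          Set.mem_singleton_iff, Set.mem_ofPred_eq]
        constructor
        · rintro ⟨h1, rfl⟩
          exact ⟨h1, rfl⟩
        · rintro ⟨h1, rfl⟩
          exact ⟨h1, rfl⟩
      rw [this, hmdef, Measure.prod_prod, h0, zero_mul]
    rw [Filter.EventuallyEq, ae_restrict_iff' (hA q₀), ae_iff]
    refine measure_mono_null ?_ h2
    intro z hz
    simp only [Set.mem_ofPred_eq, Classical.not_imp] at hz
    exact ⟨hz.2, hz.1⟩
  obtain ⟨k, hk⟩ : ∃ k : ℕ, P {ω | 1 / ((k : ℝ) + 1) ≤ |f (ω, q₀)|} ≠ 0 := by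
    by_contra hcon
    push Not at hcon
    apply hne
    have hsub : {ω | f (ω, q₀) ≠ 0} ⊆ ⋃ k : ℕ, {ω | 1 / ((k : ℝ) + 1) ≤ |f (ω, q₀)|} := by
      intro z hz
      obtain ⟨k, hk⟩ := exists_nat_one_div_lt (abs_pos.2 hz)
      exact Set.mem_iUnion.2 ⟨k, hk.le⟩
    exact measure_mono_null hsub (measure_iUnion_null hcon)
  have hk0 : (0 : ℝ) < 1 / ((k : ℝ) + 1) := by positivity
  refine ⟨{z | 1 / ((k : ℝ) + 1) ≤ |f z|}, measurableSet_le measurable_const
    hfm.measurable.abs, ?_, hk, ?_⟩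
  · have h3 := hfL.meas_ge_lt_top (by norm_num) (by norm_num)
      (ε := ⟨1 / ((k : ℝ) + 1), hk0.le⟩) (by
        intro h0
        exact hk0.ne' (congrArg NNReal.toReal h0))
    exact h3.ne
  · have h4 := Measure.ae_ae_of_ae_prod hfinv
    filter_upwards [h4] with ω hω g
    have h5 := Measure.ae_count_iff.1 hω g
    have h6 : f (τ (ω, g)) = f (ω, g) := h5
    simp only [h6]

end H567MM
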