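import Pool.Agent.H567R2.MMF.MA
import Pool.Agent.H567R2.MN.Defs

/-! TB: recurrent cocycles are tight. -/

namespace H567MM

open MeasureTheory Filter Topology

theorem TB_aux_fin {Ω κ : Type*} [MeasurableSpace Ω] (P : Measure Ω) [IsProbabilityMeasure P]
    [Countable κ] (f : Ω → κ) (h : ∀ s, MeasurableSet {ω | f ω = s}) (ε : ℝ) (hε : 0 < ε) :
    ∃ T : Finset κ, P.real {ω | f ω ∉ T} < ε := by
  classical
  rcases isEmpty_or_nonempty κ with hk | hk
  · refine ⟨∅, ?_⟩
    have e : {ω | f ω ∉ (∅ : Finset κ)} = ∅ := by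
      ext ω
      exact (hk.false (f ω)).elim
    rw [e, measureReal_empty]
    exact hε
  · obtain ⟨e, he⟩ := exists_surjective_nat κ
    set D : ℕ → Set Ω := fun n => {ω | f ω ∉ (Finset.range n).image e} with hDdef
    have hD : ∀ n, MeasurableSet (D n) := by
      intro n
      have e1 : D n = (⋃ s ∈ (Finset.range n).image e, {ω | f ω = s})ᶜ := by
        ext ω
        simp [hDdef, eq_comm]
      rw [e1]
      exact (Finset.measurableSet_biUnion _ (fun s _ => h s)).compl
    have hanti : Antitone D := by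
      intro m n hmn ω hω hc
      exact hω (Finset.image_subset_image (Finset.range_mono hmn) hc)
    have hinter : ⋂ n, D n = ∅ := by
      rw [Set.eq_empty_iff_forall_notMem]
      intro ω hω
      rw [Set.mem_iInter] at hω
      obtain ⟨k, hk⟩ := he (f ω)
      exact hω (k + 1) (Finset.mem_image.mpr ⟨k, Finset.mem_range.mpr (Nat.lt_succ_self k), hk⟩)
    have ht := tendsto_measure_iInter_atTop (μ := P) (fun n => (hD n).nullMeasurableSet) hanti
      ⟨0, measure_ne_top _ _⟩
    rw [hinter, measure_empty] at ht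
    have ht2 : Tendsto (fun n => P.real (D n)) atTop (𝓝 0) := by
      have h3 := (ENNReal.tendsto_toReal ENNReal.zero_ne_top).comp ht
      rw [ENNReal.toReal_zero] at h3
      exact h3
    obtain ⟨n, hn⟩ := ((tendsto_order.1 ht2).2 ε hε).exists
    exact ⟨_, hn⟩

theorem TB_aux_set {Ω G : Type*} [MeasurableSpace Ω] (P : Measure Ω)
    [IsProbabilityMeasure P] (S : Ω → Ω) (hS : Ergodic S P) [CommGroup G]
    [Countable G] [MeasurableSpace G] [DiscreteMeasurableSpace G] (ψ : Ω → G)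
    (B : Set (Ω × G)) (hB : MeasurableSet B)
    (h0 : (P.prod Measure.count) B ≠ 0) (h1 : (P.prod Measure.count) B ≠ ⊤)
    (hinv : ∀ᵐ ω ∂P, ∀ g : G, ((ω, g) ∈ B ↔ (S ω, g * ψ ω) ∈ B)) :
    ∃ fs : Ω → Finset G, (∀ s, MeasurableSet {ω | fs ω = s}) ∧ (∀ᵐ ω ∂P, (fs ω).Nonempty) ∧
      ∀ᵐ ω ∂P, ∀ g ∈ fs ω, g * ψ ω ∈ fs (S ω) := by
  classical
  have hBg : ∀ g, MeasurableSet {ω | (ω, g) ∈ B} := fun g => measurable_prodMk_right hB
  set F : Ω → Set G := fun ω => Prod.mk ω ⁻¹' B with hF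
  set fs : Ω → Finset G := fun ω => if h : (F ω).Finite then h.toFinset else ∅ with hfs
  have hfin : ∀ ω, (F ω).Finite → ((fs ω : Finset G) : Set G) = F ω := by
    intro ω h
    simp only [hfs, dif_pos h, Set.Finite.coe_toFinset]
  have hset : ∀ ω (s : Finset G), s.Nonempty → (fs ω = s ↔ ∀ g, ((ω, g) ∈ B ↔ g ∈ s)) := by
    intro ω s hs
    constructor
    · intro h g
      have hf : (F ω).Finite := by
        by_contra hc
        simp only [hfs, dif_neg hc] at h
        exact hs.ne_empty h.symm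
      have h2 := hfin ω hf
      rw [h] at h2
      have : g ∈ (s : Set G) ↔ g ∈ F ω := by rw [h2]
      rw [Finset.mem_coe] at this
      exact this.symm
    · intro h
      have e : F ω = (s : Set G) := by
        ext g
        exact h g
      have hf : (F ω).Finite := by rw [e]; exact s.finite_toSet
      have h2 := hfin ω hf
      rw [e] at h2
      exact Finset.coe_injective h2
  have hms : ∀ s : Finset G, s.Nonempty → MeasurableSet {ω | fs ω = s} := by
    intro s hs
    have e : {ω | fs ω = s} = ⋂ g : G, {ω | (ω, g) ∈ B ↔ g ∈ s} := by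
      ext ω
      simp only [Set.mem_ofPred_eq, Set.mem_iInter]
      exact hset ω s hs
    rw [e]
    refine MeasurableSet.iInter (fun g => ?_)
    by_cases hg : g ∈ s
    · have : {ω | (ω, g) ∈ B ↔ g ∈ s} = {ω | (ω, g) ∈ B} := by
        ext ω; simp [hg]
      rw [this]; exact hBg g
    · have : {ω | (ω, g) ∈ B ↔ g ∈ s} = {ω | (ω, g) ∈ B}ᶜ := by
        ext ω; simp [hg]
      rw [this]; exact (hBg g).compl
  have hm : ∀ s : Finset G, MeasurableSet {ω | fs ω = s} := by
    intro s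
    rcases s.eq_empty_or_nonempty with rfl | hs
    · have e : {ω | fs ω = ∅} = (⋃ s ∈ {s : Finset G | s.Nonempty}, {ω | fs ω = s})ᶜ := by
        ext ω
        simp only [Set.mem_ofPred_eq, Set.mem_compl_iff, Set.mem_iUnion, not_exists, exists_prop]
        constructor
        · rintro h s ⟨hs, rfl⟩
          exact hs.ne_empty h
        · intro h
          by_contra hc
          exact h (fs ω) ⟨Finset.nonempty_iff_ne_empty.mpr hc, rfl⟩
      rw [e]
      exact (MeasurableSet.biUnion (Set.to_countable _) (fun s hs => hms s hs)).compl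
    · exact hms s hs
  have hcount : (P.prod Measure.count) B = ∫⁻ ω, Measure.count (F ω) ∂P :=
    Measure.prod_apply hB
  have hae : ∀ᵐ ω ∂P, (F ω).Finite := by
    have h2 := ae_lt_top (μ := P) (measurable_measure_prodMk_left (ν := Measure.count) hB)
      (by rw [← hcount]; exact h1)
    filter_upwards [h2] with ω hω
    exact Measure.count_apply_lt_top.mp hω
  have hstep : ∀ᵐ ω ∂P, fs (S ω) = (fs ω).image (fun g => g * ψ ω) := by
    filter_upwards [hae, hS.toMeasurePreserving.quasiMeasurePreserving.ae hae, hinv]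
      with ω h2 h3 h4
    apply Finset.coe_injective
    rw [Finset.coe_image, hfin _ h3, hfin _ h2]
    ext g
    constructor
    · intro hg
      refine ⟨g * (ψ ω)⁻¹, (h4 _).mpr ?_, by simp⟩
      rw [inv_mul_cancel_right]
      exact hg
    · rintro ⟨g', hg', rfl⟩
      exact (h4 g').mp hg'
  have hinj : ∀ ω, Function.Injective (fun g : G => g * ψ ω) := fun ω => mul_left_injective _
  have hcard : ∀ᵐ ω ∂P, (fs (S ω)).card = (fs ω).card := by
    filter_upwards [hstep] with ω h2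
    rw [h2, Finset.card_image_of_injective _ (hinj ω)]
  obtain ⟨f, hf⟩ := const_of_ergodic P S hS (fun ω => (fs ω).card)
    (CB_aux_meas fs hm (fun s => s.card)) hcard
  have hfpos : 0 < f := by
    rcases Nat.eq_zero_or_pos f with h | h
    · exfalso
      apply h0
      rw [hcount, lintegral_eq_zero_iff (measurable_measure_prodMk_left hB)]
      filter_upwards [hf, hae] with ω h2 h3
      rw [h, Finset.card_eq_zero] at h2
      have h4 := hfin ω h3
      rw [h2, Finset.coe_empty] at h4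
      show Measure.count (F ω) = 0
      rw [← h4, measure_empty]
    · exact h
  refine ⟨fs, hm, ?_, ?_⟩
  · filter_upwards [hf] with ω h2
    rw [← Finset.card_pos, h2]
    exact hfpos
  · filter_upwards [hstep] with ω h2 g hg
    rw [h2]
    exact Finset.mem_image.mpr ⟨g, hg, rfl⟩

theorem tight_of_rec {Ω G : Type*} [MeasurableSpace Ω] (P : Measure Ω) [IsProbabilityMeasure P]
    (S : Ω → Ω) (hS : Ergodic S P) [CommGroup G] [Countable G] [MeasurableSpace G]
    [DiscreteMeasurableSpace G] (ψ : Ω → G) (hψ : Measurable ψ) (c : ℝ) (hc : 0 < c)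
    (h : ∀ N₀ : ℕ, ∃ N ≥ N₀, c * N ≤ ∑ n ∈ Finset.range N, P.real {ω | coc S ψ n ω = 1})
    (ε : ℝ) (hε : 0 < ε) : ∃ K : Finset G, ∀ n : ℕ, P.real {ω | coc S ψ n ω ∉ K} < ε := by
  classical
  obtain ⟨B, hB, h0, h1, hinv⟩ := exists_inv_set P S hS.toMeasurePreserving ψ hψ c hc h
  obtain ⟨fs, hm, hne, hstep⟩ := TB_aux_set P S hS ψ B hB h0 h1 hinv
  obtain ⟨T, hT⟩ := TB_aux_fin P fs hm (ε / 2) (by linarith)
  set K₀ : Finset G := T.biUnion _root_.id with hK₀
  refine ⟨Finset.image₂ (fun a b => a / b) K₀ K₀, fun n => ?_⟩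
  have hTm : MeasurableSet {ω | fs ω ∉ T} := by
    have e1 : {ω | fs ω ∉ T} = (⋃ s ∈ T, {ω | fs ω = s})ᶜ := by
      ext ω
      simp
    rw [e1]
    exact (Finset.measurableSet_biUnion _ (fun s _ => hm s)).compl
  -- iterates
  have hit : ∀ᵐ ω ∂P, ∀ m : ℕ, ∀ g ∈ fs (S^[m] ω), g * ψ (S^[m] ω) ∈ fs (S (S^[m] ω)) :=
    ae_all_iff.mpr (fun m =>
      (hS.toMeasurePreserving.iterate m).quasiMeasurePreserving.ae hstep)
  have hit2 : ∀ᵐ ω ∂P, ∀ m : ℕ, ∀ g ∈ fs ω, g * coc S ψ m ω ∈ fs (S^[m] ω) := by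
    filter_upwards [hit] with ω hω m
    induction m with
    | zero =>
      intro g hg
      simpa [coc] using hg
    | succ m ih =>
      intro g hg
      have h2 := hω m _ (ih g hg)
      rw [Function.iterate_succ_apply']
      show g * (coc S ψ m ω * ψ (S^[m] ω)) ∈ _
      rw [← mul_assoc]
      exact h2
  have hsub : ∀ᵐ ω ∂P, coc S ψ n ω ∉ Finset.image₂ (fun a b => a / b) K₀ K₀ →
      ω ∈ {ω | fs ω ∉ T} ∪ S^[n] ⁻¹' {ω | fs ω ∉ T} := by
    filter_upwards [hit2, hne] with ω h2 h3 h4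
    by_contra hc
    rw [Set.mem_union, not_or] at hc
    obtain ⟨hc1, hc2⟩ := hc
    have hc1' : fs ω ∈ T := by
      by_contra h5
      exact hc1 h5
    have hc2' : fs (S^[n] ω) ∈ T := by
      by_contra h5
      exact hc2 h5
    obtain ⟨g, hg⟩ := h3
    apply h4
    refine Finset.mem_image₂.mpr ⟨g * coc S ψ n ω, Finset.mem_biUnion.mpr ⟨_, hc2', h2 n g hg⟩,
      g, Finset.mem_biUnion.mpr ⟨_, hc1', hg⟩, ?_⟩
    rw [mul_comm, mul_div_assoc, div_self', mul_one]
  have hle : P {ω | coc S ψ n ω ∉ Finset.image₂ (fun a b => a / b) K₀ K₀} ≤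
      P ({ω | fs ω ∉ T} ∪ S^[n] ⁻¹' {ω | fs ω ∉ T}) := measure_mono_ae hsub
  have hle2 : P.real {ω | coc S ψ n ω ∉ Finset.image₂ (fun a b => a / b) K₀ K₀} ≤
      P.real ({ω | fs ω ∉ T} ∪ S^[n] ⁻¹' {ω | fs ω ∉ T}) :=
    ENNReal.toReal_mono (measure_ne_top _ _) hle
  have hle3 : P.real ({ω | fs ω ∉ T} ∪ S^[n] ⁻¹' {ω | fs ω ∉ T}) ≤
      P.real {ω | fs ω ∉ T} + P.real (S^[n] ⁻¹' {ω | fs ω ∉ T}) := measureReal_union_le _ _
  have hpre : P.real (S^[n] ⁻¹' {ω | fs ω ∉ T}) = P.real {ω | fs ω ∉ T} :=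
    (hS.toMeasurePreserving.iterate n).measureReal_preimage hTm.nullMeasurableSet
  rw [hpre] at hle3
  linarith

end H567MM
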