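import Pool.Agent.H567R2.MMF.MA
import Pool.Agent.H567R2.MN.Defs
import Pool.Agent.H567R2.MNF.E2

/-! B2: the exceptional set is small (helper415). -/

namespace H567MM

open MeasureTheory Filter Topology

theorem bad_small2 {X R M : Type*} [MeasurableSpace X] (μ : Measure X) [IsProbabilityMeasure μ]
    (S : X → X) (hS : MeasurePreserving S μ μ) [CommRing R] [AddCommGroup M] [Module R M]
    [Countable M] (φ : X → Rˣ) (hφ : ∀ m m' : M, MeasurableSet {x | (φ x : R) • m = m'}) {s : ℕ}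
    (m : Fin s → M) (a : Fin s)
    (IH : ∀ v : Fin s → M, v ≠ 0 → v a = 0 → (∀ i, m i = 0 → v i = 0) → Small μ S φ v)
    (r : ℕ) (ε : ℝ) (hε : 0 < ε) :
    ∃ G : ℕ, ∀ n : Fin s → ℕ, Gaps G n → μ.real {x |
      ∑ i, cv S φ (n i) x • (cv S φ r (S^[n i] x) • m i - cv S φ r (S^[n a] x) • m i) = 0 ∧
      (fun i => cv S φ r (S^[n i] x) • m i - cv S φ r (S^[n a] x) • m i) ≠ 0} < ε := by
  classical
  obtain ⟨η, hη⟩ : ∃ η : ℝ, η = ε / (4 * ((s : ℝ) + 1)) := ⟨_, rfl⟩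
  have hη0 : 0 < η := by rw [hη]; positivity
  have hZ : ∀ i : Fin s, ∃ Z : Finset M, μ.real {x | cv S φ r x • m i ∉ Z} < η := fun i =>
    H567MM.BD_aux_finset μ (fun x => cv S φ r x • m i)
      (fun g => H567MM.cv_meas S hS.measurable φ hφ r (m i) g) η hη0
  choose Z hZ using hZ
  -- the finite set of vectors
  obtain ⟨vec, hvec⟩ : ∃ vec : (Fin s → M) × (Fin s → M) → Fin s → M,
    vec = fun zw i => zw.1 i - zw.2 i := ⟨_, rfl⟩
  obtain ⟨V, hV⟩ : ∃ V : Finset (Fin s → M), V = ((Fintype.piFinset Z ×ˢ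
    Fintype.piFinset Z).image vec).filter
      (fun v => v ≠ 0 ∧ v a = 0 ∧ ∀ i, m i = 0 → v i = 0) := ⟨_, rfl⟩
  obtain ⟨δ, hδ⟩ : ∃ δ : ℝ, δ = ε / (2 * ((V.card : ℝ) + 1)) := ⟨_, rfl⟩
  have hδ0 : 0 < δ := by rw [hδ]; positivity
  have IH' : ∀ v : Fin s → M, ∃ G : ℕ, v ∈ V → ∀ n : Fin s → ℕ,
      Gaps G n → μ.real {x | ∑ i, cv S φ (n i) x • v i = 0} < δ := by
    intro v
    by_cases h : v ∈ V
    · have h' := h
      rw [hV, Finset.mem_filter] at h'
      obtain ⟨G, hG⟩ := IH v h'.2.1 h'.2.2.1 h'.2.2.2 δ hδ0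
      exact ⟨G, fun _ => hG⟩
    · exact ⟨0, fun h' => absurd h' h⟩
  choose G hG using IH'
  refine ⟨V.sup G, fun n hn => ?_⟩
  obtain ⟨B, hB⟩ : ∃ B : Set X, B = {x |
      ∑ i, cv S φ (n i) x • (cv S φ r (S^[n i] x) • m i - cv S φ r (S^[n a] x) • m i) = 0 ∧
      (fun i => cv S φ r (S^[n i] x) • m i - cv S φ r (S^[n a] x) • m i) ≠ 0} := ⟨_, rfl⟩
  rw [← hB]
  have hsub : B ⊆ ((⋃ i ∈ (Finset.univ : Finset (Fin s)),
        S^[n i] ⁻¹' {x | cv S φ r x • m i ∉ Z i}) ∪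
      (⋃ i ∈ (Finset.univ : Finset (Fin s)), S^[n a] ⁻¹' {x | cv S φ r x • m i ∉ Z i})) ∪
      ⋃ v ∈ V, {x | ∑ i, cv S φ (n i) x • v i = 0} := by
    intro x hx
    rw [hB] at hx
    by_cases h1 : ∃ i, cv S φ r (S^[n i] x) • m i ∉ Z i
    · obtain ⟨i, hi⟩ := h1
      left; left
      rw [Set.mem_iUnion₂]
      exact ⟨i, Finset.mem_univ i, hi⟩
    by_cases h2 : ∃ i, cv S φ r (S^[n a] x) • m i ∉ Z i
    · obtain ⟨i, hi⟩ := h2
      left; right
      rw [Set.mem_iUnion₂]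
      exact ⟨i, Finset.mem_univ i, hi⟩
    push Not at h1 h2
    right
    rw [Set.mem_iUnion₂]
    refine ⟨fun i => cv S φ r (S^[n i] x) • m i - cv S φ r (S^[n a] x) • m i, ?_, hx.1⟩
    rw [hV, Finset.mem_filter]
    refine ⟨?_, hx.2, ?_, ?_⟩
    · rw [Finset.mem_image]
      refine ⟨(fun i => cv S φ r (S^[n i] x) • m i, fun i => cv S φ r (S^[n a] x) • m i), ?_, ?_⟩
      · rw [Finset.mem_product]
        constructor
        · rw [Fintype.mem_piFinset]
          exact h1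
        · rw [Fintype.mem_piFinset]
          exact h2
      · rw [hvec]
    · exact sub_self _
    · intro i hi
      simp only [hi, smul_zero, sub_self]
  have hmeas : ∀ i : Fin s, MeasurableSet {x | cv S φ r x • m i ∉ Z i} := by
    intro i
    have h1 : {x | cv S φ r x • m i ∉ Z i} = (⋃ z ∈ Z i, {x | cv S φ r x • m i = z})ᶜ := by
      ext x
      simp
    rw [h1]
    exact (Finset.measurableSet_biUnion _ fun z _ =>
      H567MM.cv_meas S hS.measurable φ hφ r (m i) z).compl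
  have hpre : ∀ (k : ℕ) (i : Fin s), μ.real (S^[k] ⁻¹' {x | cv S φ r x • m i ∉ Z i}) ≤ η := by
    intro k i
    have : μ.real (S^[k] ⁻¹' {x | cv S φ r x • m i ∉ Z i}) =
        μ.real {x | cv S φ r x • m i ∉ Z i} := by
      unfold Measure.real
      rw [(hS.iterate k).measure_preimage (hmeas i).nullMeasurableSet]
    rw [this]
    exact (hZ i).le
  have hgap : ∀ v ∈ V, μ.real {x | ∑ i, cv S φ (n i) x • v i = 0} ≤ δ := by
    intro v hv
    refine (hG v hv n ?_).le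
    intro i j hij
    have h1 := hn i j hij
    have h2 := Finset.le_sup (f := G) hv
    omega
  have h1 : μ.real B ≤ (∑ i : Fin s, μ.real (S^[n i] ⁻¹' {x | cv S φ r x • m i ∉ Z i}) +
      ∑ i : Fin s, μ.real (S^[n a] ⁻¹' {x | cv S φ r x • m i ∉ Z i})) +
      ∑ v ∈ V, μ.real {x | ∑ i, cv S φ (n i) x • v i = 0} := by
    refine (measureReal_mono hsub).trans ((measureReal_union_le _ _).trans (add_le_add
      ((measureReal_union_le _ _).trans (add_le_add ?_ ?_)) ?_))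
    · exact measureReal_biUnion_finset_le _ _
    · exact measureReal_biUnion_finset_le _ _
    · exact measureReal_biUnion_finset_le _ _
  have h2 : ∑ i : Fin s, μ.real (S^[n i] ⁻¹' {x | cv S φ r x • m i ∉ Z i}) ≤ s * η := by
    refine (Finset.sum_le_sum fun i _ => hpre (n i) i).trans (le_of_eq ?_)
    rw [Finset.sum_const, Finset.card_univ, Fintype.card_fin, nsmul_eq_mul]
  have h3 : ∑ i : Fin s, μ.real (S^[n a] ⁻¹' {x | cv S φ r x • m i ∉ Z i}) ≤ s * η := by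
    refine (Finset.sum_le_sum fun i _ => hpre (n a) i).trans (le_of_eq ?_)
    rw [Finset.sum_const, Finset.card_univ, Fintype.card_fin, nsmul_eq_mul]
  have h4 : ∑ v ∈ V, μ.real {x | ∑ i, cv S φ (n i) x • v i = 0} ≤ V.card * δ := by
    refine (Finset.sum_le_sum hgap).trans (le_of_eq ?_)
    rw [Finset.sum_const, nsmul_eq_mul]
  have h5 : (V.card : ℝ) * δ < ε / 2 := by
    rw [hδ, ← mul_div_assoc, div_lt_div_iff₀ (by positivity) (by norm_num)]
    nlinarith
  have h6 : (s : ℝ) * η ≤ ε / 4 := by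
    rw [hη, ← mul_div_assoc, div_le_div_iff₀ (by positivity) (by norm_num)]
    nlinarith
  linarith

end H567MM
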