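import Pool.Agent.H567R2.MMF.MA
import Pool.Agent.H567R2.MN.Defs
import Pool.Agent.H567R2.MNF.E2
import Pool.Agent.H567R2.MNF.B2

/-! CN: if the relation is not rare then there are many collisions. -/

namespace H567MM

open MeasureTheory Filter Topology

theorem CN_aux_sum_meas {X R M : Type*} [MeasurableSpace X] [CommRing R] [AddCommGroup M]
    [Module R M] [Countable M] (S : X → X) (hS : Measurable S) (φ : X → Rˣ)
    (hφ : ∀ m m' : M, MeasurableSet {x | (φ x : R) • m = m'}) {s : ℕ} (m : Fin s → M)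
    (n : Fin s → ℕ) : MeasurableSet {x | ∑ i, cv S φ (n i) x • m i = 0} := by
  letI : MeasurableSpace M := ⊤
  haveI : DiscreteMeasurableSpace M := ⟨fun _ => trivial⟩
  have h1 : ∀ i, Measurable (fun x => cv S φ (n i) x • m i) := fun i =>
    measurable_to_countable' (fun m' => cv_meas S hS φ hφ (n i) (m i) m')
  have h2 : Measurable (fun x => fun i : Fin s => cv S φ (n i) x • m i) :=
    measurable_pi_lambda _ h1
  have h3 : MeasurableSet {u : Fin s → M | ∑ i, u i = 0} := (Set.to_countable _).measurableSet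
  exact h2 h3

theorem CN_aux_eq_meas {X R M : Type*} [MeasurableSpace X] [CommRing R] [AddCommGroup M]
    [Module R M] [Countable M] (S : X → X) (hS : Measurable S) (φ : X → Rˣ)
    (hφ : ∀ m m' : M, MeasurableSet {x | (φ x : R) • m = m'}) (r d : ℕ) (m : M) :
    MeasurableSet {x | cv S φ r x • m = cv S φ r (S^[d] x) • m} := by
  letI : MeasurableSpace M := ⊤
  haveI : DiscreteMeasurableSpace M := ⟨fun _ => trivial⟩
  have h1 : Measurable (fun x => cv S φ r x • m) :=
    measurable_to_countable' (fun m' => cv_meas S hS φ hφ r m m')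
  have h2 : Measurable (fun x => (cv S φ r x • m, cv S φ r (S^[d] x) • m)) :=
    h1.prodMk (h1.comp (hS.iterate d))
  have h3 : MeasurableSet {u : M × M | u.1 = u.2} := (Set.to_countable _).measurableSet
  exact h2 h3

/-- collisions at the places `n a` and `n b` -/
theorem CN_aux_ab {X R M : Type*} [MeasurableSpace X] (μ : Measure X)
    [IsProbabilityMeasure μ] (S : X → X) (hS : MeasurePreserving S μ μ)
    [CommRing R] [AddCommGroup M] [Module R M] [Countable M] (φ : X → Rˣ)
    (hφ : ∀ m m' : M, MeasurableSet {x | (φ x : R) • m = m'}) (r : ℕ) (m : M) (N : ℕ) (B : ℝ)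
    (hN : ∀ n : ℕ, N ≤ n → μ.real {x | cv S φ r x • m = cv S φ r (S^[n] x) • m} < B)
    (p q : ℕ) (hpq : p + N ≤ q ∨ q + N ≤ p) :
    μ.real {x | cv S φ r (S^[q] x) • m = cv S φ r (S^[p] x) • m} < B := by
  rcases hpq with h | h
  · have e : {x | cv S φ r (S^[q] x) • m = cv S φ r (S^[p] x) • m} =
        S^[p] ⁻¹' {x | cv S φ r x • m = cv S φ r (S^[q - p] x) • m} := by
      ext x
      simp only [Set.mem_ofPred_eq, Set.mem_preimage]
      rw [← Function.iterate_add_apply S (q - p) p, show q - p + p = q by omega]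
      exact eq_comm
    rw [e, (hS.iterate p).measureReal_preimage
      (CN_aux_eq_meas S hS.measurable φ hφ r (q - p) m).nullMeasurableSet]
    exact hN _ (by omega)
  · have e : {x | cv S φ r (S^[q] x) • m = cv S φ r (S^[p] x) • m} =
        S^[q] ⁻¹' {x | cv S φ r x • m = cv S φ r (S^[p - q] x) • m} := by
      ext x
      simp only [Set.mem_ofPred_eq, Set.mem_preimage]
      rw [← Function.iterate_add_apply S (p - q) q, show p - q + q = p by omega]
    rw [e, (hS.iterate q).measureReal_preimage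
      (CN_aux_eq_meas S hS.measurable φ hφ r (p - q) m).nullMeasurableSet]
    exact hN _ (by omega)

theorem coll_of_not_small {X R M : Type*} [MeasurableSpace X] (μ : Measure X)
    [IsProbabilityMeasure μ] (S : X → X) (hS : MeasurePreserving S μ μ) (hmix : MixOrd μ S 1)
    [CommRing R] [AddCommGroup M] [Module R M] [Countable M] (φ : X → Rˣ)
    (hφ : ∀ m m' : M, MeasurableSet {x | (φ x : R) • m = m'}) {s : ℕ} (m : Fin s → M)
    (a b : Fin s) (hab : a ≠ b)
    (IH : ∀ v : Fin s → M, v ≠ 0 → v a = 0 → (∀ i, m i = 0 → v i = 0) → Small μ S φ v)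
    (hns : ¬ Small μ S φ m) :
    ∃ c : ℝ, 0 < c ∧ ∀ N₀ : ℕ, ∃ N ≥ N₀, c * N ≤ ∑ n ∈ Finset.range N,
      (μ.prod μ).real {z | cv S φ n z.1 • m b = cv S φ n z.2 • m b} := by
  have hns' : ∃ ε : ℝ, 0 < ε ∧ ∀ G : ℕ, ∃ n : Fin s → ℕ, Gaps G n ∧
      ε ≤ μ.real {x | ∑ i, cv S φ (n i) x • m i = 0} := by
    unfold Small at hns
    push Not at hns
    exact hns
  obtain ⟨ε, hε, hcon⟩ := hns'
  set q : ℕ → ℝ := fun n => (μ.prod μ).real {z | cv S φ n z.1 • m b = cv S φ n z.2 • m b}
    with hq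
  refine ⟨ε ^ 2 / 4, by positivity, fun N₀ => ?_⟩
  obtain ⟨M₁, hM₁⟩ := exists_nat_ge (8 / ε ^ 2)
  set L : ℕ := max N₀ M₁ with hL
  refine ⟨L, le_max_left _ _, ?_⟩
  have hLε : 8 ≤ ε ^ 2 * L := by
    have h1 : 8 / ε ^ 2 ≤ L := hM₁.trans (by exact_mod_cast le_max_right _ _)
    have h2 : 0 < ε ^ 2 := by positivity
    rw [div_le_iff₀ h2] at h1
    linarith
  set η : ℝ := 1 / (4 * ((L : ℝ) + 1)) with hη
  have hηpos : 0 < η := by positivity
  have hBD := fun r : ℕ => bad_small2 μ S hS φ hφ m a IH r η hηpos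
  choose GB hGB using hBD
  have hCL : ∀ r : ℕ, ∃ N : ℕ, ∀ n : ℕ, N ≤ n →
      μ.real {x | cv S φ r x • m b = cv S φ r (S^[n] x) • m b} < q r + η :=
    fun r => collision_limit μ S hS hmix (fun x => cv S φ r x • m b)
      (fun g => cv_meas S hS.measurable φ hφ r (m b) g) η hηpos
  choose NC hNC using hCL
  set G : ℕ := (∑ r ∈ Finset.range L, GB r) + ∑ r ∈ Finset.range L, NC r with hG
  have hGB_le : ∀ r, r < L → GB r ≤ G := by
    intro r hr
    have h1 : GB r ≤ ∑ r ∈ Finset.range L, GB r :=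
      Finset.single_le_sum (f := fun r => GB r) (fun _ _ => Nat.zero_le _) (Finset.mem_range.2 hr)
    exact h1.trans (Nat.le_add_right _ _)
  have hNC_le : ∀ r, r < L → NC r ≤ G := by
    intro r hr
    have h1 : NC r ≤ ∑ r ∈ Finset.range L, NC r :=
      Finset.single_le_sum (f := fun r => NC r) (fun _ _ => Nat.zero_le _) (Finset.mem_range.2 hr)
    exact h1.trans (Nat.le_add_left _ _)
  obtain ⟨n, hn, hnε⟩ := hcon G
  set E : Set X := {x | ∑ i, cv S φ (n i) x • m i = 0} with hE
  have hEm : MeasurableSet E := CN_aux_sum_meas S hS.measurable φ hφ m n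
  have hmono : ∀ G', G' ≤ G → Gaps G' n := fun G' h' i j hij =>
    (Nat.add_le_add_left h' _).trans (hn i j hij)
  have hpair : ∀ t t', t < t' → t' < L →
      μ.real (S^[t] ⁻¹' E ∩ S^[t'] ⁻¹' E) ≤ q (t' - t) + 2 * η := by
    intro t t' htt htL
    set r := t' - t with hr
    have hrL : r < L := by omega
    have e0 : S^[t] ⁻¹' E ∩ S^[t'] ⁻¹' E = S^[t] ⁻¹' (E ∩ S^[r] ⁻¹' E) := by
      ext x
      simp only [Set.mem_inter_iff, Set.mem_preimage]
      rw [← Function.iterate_add_apply S r t, show r + t = t' by omega]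
    have hEr : MeasurableSet (E ∩ S^[r] ⁻¹' E) := hEm.inter ((hS.iterate r).measurable hEm)
    rw [e0, (hS.iterate t).measureReal_preimage hEr.nullMeasurableSet]
    set A : Set X := {x | cv S φ r (S^[n b] x) • m b = cv S φ r (S^[n a] x) • m b} with hA
    set B : Set X := {x |
      ∑ i, cv S φ (n i) x • (cv S φ r (S^[n i] x) • m i - cv S φ r (S^[n a] x) • m i) = 0 ∧
      (fun i => cv S φ r (S^[n i] x) • m i - cv S φ r (S^[n a] x) • m i) ≠ 0} with hB
    have hsub : E ∩ S^[r] ⁻¹' E ⊆ A ∪ B := by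
      intro x hx
      have h1 := elim2 S φ x m n r a hx.1 hx.2
      by_cases h2 : (fun i => cv S φ r (S^[n i] x) • m i - cv S φ r (S^[n a] x) • m i) = 0
      · left
        exact sub_eq_zero.1 (congrFun h2 b)
      · right
        exact ⟨h1, h2⟩
    have h2 : μ.real A < q r + η := by
      apply CN_aux_ab μ S hS φ hφ r (m b) (NC r) _ (hNC r)
      have := hNC_le r hrL
      rcases lt_or_gt_of_ne hab with h | h
      · left; have := hn a b h; omega
      · right; have := hn b a h; omega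
    have h3 : μ.real B < η := hGB r n (hmono _ (hGB_le r hrL))
    calc μ.real (E ∩ S^[r] ⁻¹' E) ≤ μ.real (A ∪ B) := measureReal_mono hsub
      _ ≤ μ.real A + μ.real B := measureReal_union_le _ _
      _ ≤ q r + 2 * η := by linarith
  have hsm := second_moment μ S hS E hEm L (fun n => q n + 2 * η) hpair
    (fun n => by have : 0 ≤ q n := measureReal_nonneg; positivity)
  rw [Finset.sum_add_distrib, Finset.sum_const, Finset.card_range, nsmul_eq_mul] at hsm
  have h4 : (L : ℝ) * (2 * η) ≤ 1 / 2 := by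
    rw [hη]
    have : (0:ℝ) < 4 * ((L : ℝ) + 1) := by positivity
    rw [show (L : ℝ) * (2 * (1 / (4 * ((L : ℝ) + 1)))) = (2 * L) / (4 * ((L : ℝ) + 1)) by ring,
      div_le_iff₀ this]
    linarith
  have h5 : ε ^ 2 * L ≤ μ.real E ^ 2 * L := by
    apply mul_le_mul_of_nonneg_right _ (Nat.cast_nonneg L)
    exact pow_le_pow_left₀ hε.le hnε 2
  linarith

end H567MM
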