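import Pool.Agent.H567R2.MMF.MA
import Pool.Agent.H567R2.MN.Defs

/-! The gap lemma for modules. -/

namespace H567MM

open H567MM

theorem gap_module {R M : Type*} [CommRing R] [AddCommGroup M] [Module R M] [Countable M]
    (l : Rˣ) {s : ℕ} (m : Fin s → M) (hm : m ≠ 0)
    (hl : ∀ r : ℕ, 0 < r → ∀ v ∈ Submodule.span R (Set.range m),
      ((l ^ r : Rˣ) : R) • v = v → v = 0) :
    ∃ G : ℕ, ∀ n : Fin s → ℕ, Gaps G n → ∑ i, ((l ^ n i : Rˣ) : R) • m i ≠ 0 := by
  classical
  let N : Submodule R M := Submodule.span R (Set.range m)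
  let f : Polynomial ℤ →+* R := Polynomial.eval₂RingHom (Int.castRingHom R) (l : R)
  have hfX : f Polynomial.X = (l : R) := by
    show Polynomial.eval₂ (Int.castRingHom R) (l : R) Polynomial.X = (l : R)
    exact Polynomial.eval₂_X _ _
  letI inst : Module (Polynomial ℤ) N := Module.compHom N f
  have hsm : ∀ (p : Polynomial ℤ) (v : N), p • v = f p • v := fun p v => rfl
  have hmem : ∀ i, m i ∈ N := fun i => Submodule.subset_span ⟨i, rfl⟩
  let m' : Fin s → N := fun i => ⟨m i, hmem i⟩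
  have hm' : m' ≠ 0 := by
    intro h
    apply hm
    funext i
    exact congrArg Subtype.val (congrFun h i)
  obtain ⟨K, iK, _, χ, m₀, w, hm₀, hχ, hw, hrel⟩ := residue (R := Polynomial ℤ) (M := N) m' hm'
  have hz0 : χ Polynomial.X ≠ 0 := by
    intro h
    have h1 := (hχ _).1 h
    rw [hsm, hfX] at h1
    apply hm₀
    have h2 : ((l⁻¹ : Rˣ) : R) • ((l : R) • m₀) = 0 := by rw [h1, smul_zero]
    rwa [smul_smul, Units.inv_mul, one_smul] at h2
  have hzr : ∀ r : ℕ, 0 < r → (χ Polynomial.X) ^ r ≠ 1 := by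
    intro r hr h
    have h1 : χ (Polynomial.X ^ r - 1) = 0 := by
      rw [map_sub, map_pow, map_one, h, sub_self]
    have h2 := (hχ _).1 h1
    rw [hsm, map_sub, map_pow, map_one, hfX, sub_smul, one_smul, sub_eq_zero] at h2
    apply hm₀
    apply Subtype.ext
    apply hl r hr (m₀ : M) m₀.2
    have h3 := congrArg (Subtype.val) h2
    rw [Units.val_pow_eq_pow_val]
    exact h3
  obtain ⟨G, hG⟩ := gap (χ Polynomial.X) hz0 hzr w hw
  refine ⟨G, fun n hn hsum => hG n hn ?_⟩
  have h1 : ∑ i, (Polynomial.X ^ n i : Polynomial ℤ) • m' i = 0 := by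
    apply Subtype.ext
    rw [AddSubmonoidClass.coe_finset_sum]
    rw [ZeroMemClass.coe_zero, ← hsum]
    refine Finset.sum_congr rfl fun i _ => ?_
    rw [hsm, map_pow, hfX, Units.val_pow_eq_pow_val]
    rfl
  have h2 := hrel (fun i => Polynomial.X ^ n i) h1
  rw [← h2]
  refine Finset.sum_congr rfl fun i _ => ?_
  rw [map_pow]

end H567MM
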