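import Pool.Agent.H567R2.MMF.MA
import Pool.Agent.H567R2.MN.Defs
import Pool.Agent.H567R2.MNF.GM
import Pool.Agent.H567R2.MNF.E2

/-! ST: cocycles close to a constant. -/

namespace H567MM

open MeasureTheory Filter Topology

theorem ST_aux_span {R M : Type*} [CommRing R] [AddCommGroup M] [Module R M] {s : ℕ}
    (m : Fin s → M) (p q : R) (h : ∀ b, p • m b = q • m b) (v : M)
    (hv : v ∈ Submodule.span R (Set.range m)) : p • v = q • v := by
  induction hv using Submodule.span_induction with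
  | mem x hx =>
    obtain ⟨b, rfl⟩ := hx
    exact h b
  | zero => simp
  | add x y _ _ hx hy => rw [smul_add, smul_add, hx, hy]
  | smul c x _ hx => rw [smul_comm p c, smul_comm q c, hx]

theorem ST_aux_pow {R M : Type*} [CommRing R] [AddCommGroup M] [Module R M] (l : Rˣ) (r : ℕ)
    (v : M) (h : ((l ^ r : Rˣ) : R) • v = v) (t : ℕ) : ((l ^ (r * t) : Rˣ) : R) • v = v := by
  induction t with
  | zero => simp
  | succ t ih =>
    rw [Nat.mul_succ, pow_add, Units.val_mul, mul_smul, h, ih]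

/-- (i) -/
theorem ST_aux_one {X R M : Type*} [MeasurableSpace X] (μ : Measure X)
    [IsProbabilityMeasure μ] (S : X → X)
    [CommRing R] [AddCommGroup M] [Module R M] (φ : X → Rˣ) {s : ℕ} (m : Fin s → M)
    (hmeas : ∀ (v w : M) (n : ℕ), MeasurableSet {x | cv S φ n x • v = w})
    (htr : ∀ v ∈ Submodule.span R (Set.range m), v ≠ 0 → Trans μ S φ v) (l : Rˣ)
    (hl : ∀ ε : ℝ, 0 < ε → ∃ C : Finset Rˣ, ∀ n : ℕ, μ.real {x | ¬ ∃ c ∈ C, ∀ b,
      cv S φ n x • m b = ((l ^ n * c : Rˣ) : R) • m b} < ε) (r : ℕ) (hr : 0 < r) (v : M)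
    (hv : v ∈ Submodule.span R (Set.range m)) (hlv : ((l ^ r : Rˣ) : R) • v = v) : v = 0 := by
  classical
  by_contra hv0
  obtain ⟨C, hC⟩ := hl (1 / 2) (by norm_num)
  have hT := htr v hv hv0
  set W : Finset M := C.image (fun c : Rˣ => (c : R) • v) with hW
  -- lower bound
  have low : ∀ t : ℕ, 1 / 2 ≤ ∑ w ∈ W, μ.real {x | cv S φ (r * t) x • v = w} := by
    intro t
    have h1 := hC (r * t)
    have hsub : {x | ¬ ∃ c ∈ C, ∀ b, cv S φ (r * t) x • m b =
        ((l ^ (r * t) * c : Rˣ) : R) • m b}ᶜ ⊆ ⋃ w ∈ W, {x | cv S φ (r * t) x • v = w} := by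
      intro x hx
      simp only [Set.mem_compl_iff, Set.mem_ofPred_eq, not_not] at hx
      obtain ⟨c, hc, hcb⟩ := hx
      simp only [Set.mem_iUnion]
      refine ⟨(c : R) • v, Finset.mem_image.2 ⟨c, hc, rfl⟩, ?_⟩
      have h2 := ST_aux_span m _ _ hcb v hv
      simp only [Set.mem_ofPred_eq]
      rw [h2, mul_comm, Units.val_mul, mul_smul, ST_aux_pow l r v hlv t]
    have hgen : ∀ A : Set X, (1 : ℝ) ≤ μ.real A + μ.real Aᶜ := by
      intro A
      have h3 : μ.real (A ∪ Aᶜ) ≤ μ.real A + μ.real Aᶜ := measureReal_union_le _ _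
      rwa [Set.union_compl_self, probReal_univ] at h3
    have h2 := hgen {x | ¬ ∃ c ∈ C, ∀ b, cv S φ (r * t) x • m b =
        ((l ^ (r * t) * c : Rˣ) : R) • m b}
    have h3 := measureReal_mono (μ := μ) hsub (measure_ne_top _ _)
    have h4 : μ.real (⋃ w ∈ W, {x | cv S φ (r * t) x • v = w}) ≤
        ∑ w ∈ W, μ.real {x | cv S φ (r * t) x • v = w} := measureReal_biUnion_finset_le _ _
    linarith
  -- upper bound
  set K : ℕ := W.card with hK
  have hc0 : (0 : ℝ) < 1 / (4 * r * (K + 1)) := by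
    have : (0 : ℝ) < r := by exact_mod_cast hr
    positivity
  have hN : ∀ w : M, ∃ N₀ : ℕ, ∀ N : ℕ, N₀ ≤ N →
      ∑ n ∈ Finset.range N, μ.real {x | cv S φ n x • v = w} < 1 / (4 * r * (K + 1)) * N :=
    fun w => hT w _ hc0
  choose N₀ hN₀ using hN
  set T : ℕ := (∑ w ∈ W, N₀ w) + 1 with hTd
  have hTr : T ≤ r * T := Nat.le_mul_of_pos_left _ hr
  have up : ∀ w ∈ W, ∑ n ∈ Finset.range (r * T), μ.real {x | cv S φ n x • v = w} ≤
      1 / (4 * r * (K + 1)) * (r * T : ℕ) := by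
    intro w hw
    apply (hN₀ w (r * T) _).le
    have : N₀ w ≤ ∑ w ∈ W, N₀ w :=
      Finset.single_le_sum (f := fun w => N₀ w) (fun _ _ => Nat.zero_le _) hw
    omega
  have h5 : ∑ w ∈ W, ∑ n ∈ Finset.range (r * T), μ.real {x | cv S φ n x • v = w} ≤
      K * (1 / (4 * r * (K + 1)) * (r * T : ℕ)) := by
    have := Finset.sum_le_sum up
    rwa [Finset.sum_const, nsmul_eq_mul] at this
  have h6 : ∑ t ∈ Finset.range T, ∑ w ∈ W, μ.real {x | cv S φ (r * t) x • v = w} ≤
      ∑ n ∈ Finset.range (r * T), ∑ w ∈ W, μ.real {x | cv S φ n x • v = w} := by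
    have hinj : Set.InjOn (fun t : ℕ => r * t) (Finset.range T : Set ℕ) := by
      intro x _ y _ hxy
      exact Nat.eq_of_mul_eq_mul_left hr hxy
    rw [← Finset.sum_image (g := fun t : ℕ => r * t)
      (f := fun n => ∑ w ∈ W, μ.real {x | cv S φ n x • v = w}) hinj]
    apply Finset.sum_le_sum_of_subset_of_nonneg
    · intro n hn
      obtain ⟨t, ht, rfl⟩ := Finset.mem_image.1 hn
      rw [Finset.mem_range] at ht ⊢
      exact Nat.mul_lt_mul_of_pos_left ht hr
    · intro _ _ _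
      exact Finset.sum_nonneg fun _ _ => measureReal_nonneg
  have h7 : (T : ℝ) * (1 / 2) ≤
      ∑ t ∈ Finset.range T, ∑ w ∈ W, μ.real {x | cv S φ (r * t) x • v = w} := by
    have := Finset.sum_le_sum (fun t (_ : t ∈ Finset.range T) => low t)
    rwa [Finset.sum_const, Finset.card_range, nsmul_eq_mul] at this
  rw [Finset.sum_comm] at h5
  have h8 : (K : ℝ) * (1 / (4 * r * (K + 1)) * (r * T : ℕ)) ≤ T * (1 / 4) := by
    have hr' : (0 : ℝ) < r := by exact_mod_cast hr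
    push_cast
    have e : (K : ℝ) * (1 / (4 * r * (K + 1)) * (r * T)) = T * (1 / 4) * (K / (K + 1)) := by
      field_simp
    rw [e]
    have hk : (K : ℝ) / (K + 1) ≤ 1 := by
      rw [div_le_one (by positivity)]
      linarith
    have hT0 : (0 : ℝ) ≤ T * (1 / 4) := by positivity
    exact mul_le_of_le_one_right hT0 hk
  have hT1 : (1 : ℝ) ≤ T := by
    rw [hTd]; push_cast
    have : (0 : ℝ) ≤ ∑ w ∈ W, (N₀ w : ℝ) := Finset.sum_nonneg fun _ _ => Nat.cast_nonneg _
    linarith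
  linarith

theorem small_of_tight {X R M : Type*} [MeasurableSpace X] (μ : Measure X)
    [IsProbabilityMeasure μ] (S : X → X) (hS : MeasurePreserving S μ μ)
    [CommRing R] [AddCommGroup M] [Module R M] [Countable M] (φ : X → Rˣ)
    (hφ : ∀ m m' : M, MeasurableSet {x | (φ x : R) • m = m'}) {s : ℕ} (m : Fin s → M)
    (hm : m ≠ 0) (htr : ∀ v ∈ Submodule.span R (Set.range m), v ≠ 0 → Trans μ S φ v) (l : Rˣ)
    (hl : ∀ ε : ℝ, 0 < ε → ∃ C : Finset Rˣ, ∀ n : ℕ, μ.real {x | ¬ ∃ c ∈ C, ∀ b,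
      cv S φ n x • m b = ((l ^ n * c : Rˣ) : R) • m b} < ε) : Small μ S φ m := by
  classical
  have h1 : ∀ r : ℕ, 0 < r → ∀ v ∈ Submodule.span R (Set.range m),
      ((l ^ r : Rˣ) : R) • v = v → v = 0 := fun r hr v hv hlv =>
    ST_aux_one μ S φ m (fun v w n => cv_meas S hS.measurable φ hφ n v w) htr l hl r hr v hv hlv
  intro ε hε
  have hs : (0 : ℝ) < (s : ℝ) + 1 := by positivity
  obtain ⟨C, hC⟩ := hl (ε / (s + 1)) (by positivity)
  have hG : ∀ c : Fin s → Rˣ, ∃ G : ℕ, ∀ n : Fin s → ℕ, Gaps G n →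
      ∑ i, ((l ^ n i : Rˣ) : R) • ((c i : R) • m i) ≠ 0 := by
    intro c
    apply gap_module l (fun i => (c i : R) • m i)
    · intro h
      apply hm
      funext i
      have := congrFun h i
      simp only [Pi.zero_apply] at this ⊢
      have h2 : ((c i)⁻¹ : Rˣ) • ((c i : Rˣ) • m i) = ((c i)⁻¹ : Rˣ) • (0 : M) := by
        congr 1
      rwa [inv_smul_smul, smul_zero] at h2
    · intro r hr v hv
      apply h1 r hr v
      refine Submodule.span_le.2 ?_ hv
      rintro _ ⟨i, rfl⟩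
      exact Submodule.smul_mem _ _ (Submodule.subset_span ⟨i, rfl⟩)
  choose G hG using hG
  refine ⟨(Fintype.piFinset fun _ : Fin s => C).sup G, fun n hn => ?_⟩
  have hsub : {x | ∑ i, cv S φ (n i) x • m i = 0} ⊆ ⋃ i ∈ (Finset.univ : Finset (Fin s)),
      {x | ¬ ∃ c ∈ C, ∀ b, cv S φ (n i) x • m b = ((l ^ n i * c : Rˣ) : R) • m b} := by
    intro x hx
    by_contra hcon
    have hcon' : ∀ i, ∃ c ∈ C, ∀ b, cv S φ (n i) x • m b = ((l ^ n i * c : Rˣ) : R) • m b := by
      intro i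
      by_contra h
      exact hcon (Set.mem_iUnion₂.2 ⟨i, Finset.mem_univ i, h⟩)
    choose c hc hcb using hcon'
    have h2 : G c ≤ (Fintype.piFinset fun _ : Fin s => C).sup G :=
      Finset.le_sup (f := G) (Fintype.mem_piFinset.2 hc)
    apply hG c n (fun i j hij => (Nat.add_le_add_left h2 _).trans (hn i j hij))
    rw [← hx]
    refine Finset.sum_congr rfl fun i _ => ?_
    rw [hcb i i, Units.val_mul, mul_smul]
  have h3 := measureReal_mono (μ := μ) hsub (measure_ne_top _ _)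
  have h4 : μ.real (⋃ i ∈ (Finset.univ : Finset (Fin s)),
      {x | ¬ ∃ c ∈ C, ∀ b, cv S φ (n i) x • m b = ((l ^ n i * c : Rˣ) : R) • m b}) ≤
      ∑ i ∈ (Finset.univ : Finset (Fin s)),
        μ.real {x | ¬ ∃ c ∈ C, ∀ b, cv S φ (n i) x • m b = ((l ^ n i * c : Rˣ) : R) • m b} :=
    measureReal_biUnion_finset_le _ _
  have h5 : ∑ i ∈ (Finset.univ : Finset (Fin s)),
      μ.real {x | ¬ ∃ c ∈ C, ∀ b, cv S φ (n i) x • m b = ((l ^ n i * c : Rˣ) : R) • m b} ≤
      s * (ε / (s + 1)) := by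
    have := Finset.sum_le_sum (fun i (_ : i ∈ (Finset.univ : Finset (Fin s))) => (hC (n i)).le)
    rwa [Finset.sum_const, nsmul_eq_mul, Finset.card_univ, Fintype.card_fin] at this
  have h6 : (s : ℝ) * (ε / (s + 1)) < ε := by
    rw [mul_div_assoc', div_lt_iff₀ hs]
    nlinarith
  linarith

end H567MM
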