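import Pool.Agent.H567R2.MMF.MA
import Pool.Agent.H567R2.MN.Defs

/-! Task RM: recurrent elements. -/

namespace H567MM

open MeasureTheory

theorem rec_smul {X R M : Type*} [MeasurableSpace X] (μ : Measure X)
    [IsProbabilityMeasure μ] (S : X → X)
    [CommRing R] [AddCommGroup M] [Module R M] [Countable M] (φ : X → Rˣ) (m : M) (r : R)
    (h : Rec μ S φ m) : Rec μ S φ (r • m) := by
  intro ε hε
  obtain ⟨B, f, hB, hinv, hcard, hm⟩ := h ε hε
  refine ⟨fun m' => {x | ∃ m'', r • m'' = m' ∧ x ∈ B m''}, f, ?_, ?_, ?_, ?_⟩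
  · intro m'
    have h1 : {x | ∃ m'', r • m'' = m' ∧ x ∈ B m''} =
        ⋃ m'' ∈ {m'' : M | r • m'' = m'}, B m'' := by
      ext x
      simp
    show MeasurableSet {x | ∃ m'', r • m'' = m' ∧ x ∈ B m''}
    rw [h1]
    exact MeasurableSet.biUnion (Set.to_countable _) fun m'' _ => hB m''
  · filter_upwards [hinv] with x hx m'
    constructor
    · rintro ⟨m'', h1, h2⟩
      refine ⟨((φ x)⁻¹ : Rˣ) • m'', ?_, ?_⟩
      · rw [smul_comm, h1, ← Units.smul_def, inv_smul_smul]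
      · rw [← hx, ← Units.smul_def, smul_inv_smul]
        exact h2
    · rintro ⟨n, h1, h2⟩
      refine ⟨(φ x : R) • n, ?_, (hx n).2 h2⟩
      rw [smul_comm, h1]
  · filter_upwards [hcard] with x hx
    have h1 : {m' : M | ∃ m'', r • m'' = m' ∧ x ∈ B m''} =
        (fun m'' => r • m'') '' {m' | x ∈ B m'} := by
      ext m'
      simp only [Set.mem_ofPred_eq, Set.mem_image]
      constructor
      · rintro ⟨m'', h1, h2⟩; exact ⟨m'', h2, h1⟩
      · rintro ⟨m'', h1, h2⟩; exact ⟨m'', h2, h1⟩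
    show ({m' : M | ∃ m'', r • m'' = m' ∧ x ∈ B m''}).encard ≤ f
    rw [h1]
    exact (Set.encard_image_le _ _).trans hx
  · refine lt_of_le_of_lt (measureReal_mono ?_) hm
    intro x hx hx'
    exact hx ⟨m, rfl, hx'⟩

theorem rec_card {X R M : Type*} [MeasurableSpace X] (μ : Measure X)
    [IsProbabilityMeasure μ] (S : X → X) (hS : MeasurePreserving S μ μ)
    [CommRing R] [AddCommGroup M] [Module R M] [Countable M] (φ : X → Rˣ) (B : M → Set X)
    (f : ℕ) (hinv : ∀ᵐ x ∂μ, ∀ m', (x ∈ B ((φ x : R) • m') ↔ S x ∈ B m'))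
    (hf : ∀ᵐ x ∂μ, {m' | x ∈ B m'}.encard ≤ f) :
    ∀ᵐ x ∂μ, ∃ Z : Finset M, Z.card ≤ f ∧ ∀ t q, S^[t] x ∈ B q → cv S φ t x • q ∈ Z := by
  have h1 : ∀ᵐ x ∂μ, ∀ t : ℕ, ∀ m', (S^[t] x ∈ B ((φ (S^[t] x) : R) • m') ↔
      S (S^[t] x) ∈ B m') := by
    rw [ae_all_iff]
    intro t
    exact (hS.iterate t).quasiMeasurePreserving.ae hinv
  filter_upwards [h1, hf] with x hx hfx
  have h2 : ∀ t q, S^[t] x ∈ B q ↔ x ∈ B (cv S φ t x • q) := by
    intro t
    induction t with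
    | zero =>
      intro q
      simp [cv, coc]
    | succ t ih =>
      intro q
      have h3 : cv S φ (t + 1) x = cv S φ t x * (φ (S^[t] x) : R) := by
        simp [cv, coc]
      rw [Function.iterate_succ_apply', ← hx t q, ih, h3, mul_smul]
  have hfin : {m' | x ∈ B m'}.Finite :=
    Set.finite_of_encard_le_coe hfx
  refine ⟨hfin.toFinset, ?_, ?_⟩
  · have h4 : ({m' | x ∈ B m'}.encard : ℕ∞) = (hfin.toFinset.card : ℕ∞) :=
      hfin.encard_eq_coe_toFinset_card
    rw [h4] at hfx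
    exact_mod_cast hfx
  · intro t q hq
    rw [Set.Finite.mem_toFinset]
    exact (h2 t q).1 hq

end H567MM
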