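import Pool.Agent.H567R2.MMF.MA
import Pool.Agent.H567R2.MN.Defs
import Pool.Agent.H567R2.MNF.AC
import Pool.Agent.H567R2.MNF.AP
import Pool.Agent.H567R2.MNF.E2

/-! TI: the integral of the functions `th`. -/

namespace H567MM

open MeasureTheory Filter Topology

theorem TI_aux_meas {X R M : Type*} [MeasurableSpace X] [CommRing R] [AddCommGroup M]
    [Module R M] [Countable M] (S : X → X) (hS : Measurable S) (φ : X → Rˣ)
    (hφ : ∀ m m' : M, MeasurableSet {x | (φ x : R) • m = m'}) (L : Submodule R M) (m : M)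
    (t t' : ℕ) : MeasurableSet {x | cv S φ t x • m - cv S φ t' x • m ∈ L} := by
  have h1 : {x | cv S φ t x • m - cv S φ t' x • m ∈ L} =
      ⋃ (p : {p : M × M // p.1 - p.2 ∈ L}),
        ({x | cv S φ t x • m = p.1.1} ∩ {x | cv S φ t' x • m = p.1.2}) := by
    ext x
    simp only [Set.mem_setOf_eq, Set.mem_iUnion, Set.mem_inter_iff]
    constructor
    · intro h
      exact ⟨⟨(cv S φ t x • m, cv S φ t' x • m), h⟩, rfl, rfl⟩
    · rintro ⟨⟨⟨a, b⟩, hab⟩, h1, h2⟩
      simp only at h1 h2 hab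
      rw [h1, h2]
      exact hab
  rw [h1]
  exact MeasurableSet.iUnion fun p => (cv_meas S hS φ hφ t m _).inter (cv_meas S hS φ hφ t' m _)

theorem TI_aux_ten {X R M : Type*} [CommRing R] [AddCommGroup M] [Module R M] (S : X → X)
    (φ : X → Rˣ) (α : X → Dual M) (A : Set X) (m : M) (t : ℕ) (x : X) (y : Dual M) :
    ten A m ((askew S φ α)^[t] (x, y)) =
      A.indicator (fun _ => (1 : ℂ)) (S^[t] x) * ((ac S φ α t x m : Circle) : ℂ) *
        ((y (cv S φ t x • m) : Circle) : ℂ) := by
  rw [askew_iterate]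
  show A.indicator (fun _ => (1 : ℂ)) (S^[t] x) *
    (((ac S φ α t x * act (coc S φ t x) y) m : Circle) : ℂ) = _
  rw [AddChar.mul_apply, Circle.coe_mul, mul_assoc]
  rfl

theorem TI_aux_prod {X R M : Type*} [CommRing R] [AddCommGroup M] [Module R M] (S : X → X)
    (φ : X → Rˣ) (α : X → Dual M) (A : Set X) (m : M) (t t' : ℕ) (x : X) (y : Dual M) :
    ten A m ((askew S φ α)^[t] (x, y)) *
        (starRingEnd ℂ) (ten A m ((askew S φ α)^[t'] (x, y))) =
      (A.indicator (fun _ => (1 : ℂ)) (S^[t] x) * ((ac S φ α t x m : Circle) : ℂ) *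
        (starRingEnd ℂ) (A.indicator (fun _ => (1 : ℂ)) (S^[t'] x) *
          ((ac S φ α t' x m : Circle) : ℂ))) *
        ((y (cv S φ t x • m - cv S φ t' x • m) : Circle) : ℂ) := by
  rw [TI_aux_ten, TI_aux_ten, AddChar.map_sub_eq_div, Circle.coe_div, div_eq_mul_inv,
    ← Circle.coe_inv, Circle.coe_inv_eq_conj, map_mul]
  ring

theorem th_integral {X R M : Type*} [MeasurableSpace X] (μ : Measure X)
    [IsProbabilityMeasure μ] (S : X → X) (hS : MeasurePreserving S μ μ)
    [CommRing R] [AddCommGroup M] [Module R M] [Countable M] (φ : X → Rˣ)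
    (hφ : ∀ m m' : M, MeasurableSet {x | (φ x : R) • m = m'}) (α : X → Dual M)
    (hα : Measurable α) (ν : Measure (Dual M)) (hν : IsHaarProb ν) (L : Submodule R M)
    (A : Set X) (hA : MeasurableSet A) (m : M) (t t' : ℕ) :
    ∫ z, th S φ α L A m t t' z ∂(μ.prod ν) =
      ∫ z, ten A m ((askew S φ α)^[t] z) *
        (starRingEnd ℂ) (ten A m ((askew S φ α)^[t'] z)) ∂(μ.prod ν) := by
  haveI := hν.1
  set D : Set X := {x | cv S φ t x • m - cv S φ t' x • m ∈ L} with hDdef
  have hD : MeasurableSet D := TI_aux_meas S hS.measurable φ hφ L m t t'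
  have hT : Measurable (askew S φ α : X × Dual M → X × Dual M) :=
    (askew_measurePreserving μ S hS φ hφ α hα ν hν).measurable
  set F : X × Dual M → ℂ := fun z => ten A m ((askew S φ α)^[t] z) *
        (starRingEnd ℂ) (ten A m ((askew S φ α)^[t'] z)) with hF
  have hten : ∀ s : ℕ, Measurable (fun z => ten A m ((askew S φ α)^[s] z)) := fun s =>
    (TM_aux_ten_meas A hA m).comp (hT.iterate s)
  have hFm : Measurable F := (hten t).mul (Complex.continuous_conj.measurable.comp (hten t'))
  have hFb : ∀ z, ‖F z‖ ≤ 1 := by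
    intro z
    rw [hF]
    simp only [norm_mul, RCLike.norm_conj]
    exact mul_le_one₀ (TM_aux_ten_le _ _ _) (norm_nonneg _) (TM_aux_ten_le _ _ _)
  have hFi : Integrable F (μ.prod ν) :=
    Integrable.of_bound hFm.aestronglyMeasurable 1 (Eventually.of_forall hFb)
  have hind : Measurable (fun z : X × Dual M => D.indicator (fun _ => (1 : ℂ)) z.1) :=
    (measurable_const.indicator hD).comp measurable_fst
  have hthm : Measurable (fun z => D.indicator (fun _ => (1 : ℂ)) z.1 * F z) := hind.mul hFm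
  have hthb : ∀ z : X × Dual M, ‖D.indicator (fun _ => (1 : ℂ)) z.1 * F z‖ ≤ 1 := by
    intro z
    rw [norm_mul]
    refine mul_le_one₀ ?_ (norm_nonneg _) (hFb z)
    by_cases h : z.1 ∈ D
    · simp [h]
    · simp [h]
  have hthi : Integrable (fun z => D.indicator (fun _ => (1 : ℂ)) z.1 * F z) (μ.prod ν) :=
    Integrable.of_bound hthm.aestronglyMeasurable 1 (Eventually.of_forall hthb)
  show ∫ z, D.indicator (fun _ => (1 : ℂ)) z.1 * F z ∂(μ.prod ν) = ∫ z, F z ∂(μ.prod ν)
  have h2 := integral_prod (μ := μ) (ν := ν)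
    (fun z : X × Dual M => D.indicator (fun _ => (1 : ℂ)) z.1 * F z - F z) (hthi.sub hFi)
  rw [← sub_eq_zero, ← integral_sub hthi hFi]
  rw [h2]
  refine integral_eq_zero_of_ae (Eventually.of_forall fun x => ?_)
  show ∫ y, (D.indicator (fun _ => (1 : ℂ)) x * F (x, y) - F (x, y)) ∂ν = 0
  by_cases hx : x ∈ D
  · simp [hx]
  · have h0 : cv S φ t x • m - cv S φ t' x • m ≠ 0 := by
      intro h
      apply hx
      rw [hDdef, Set.mem_setOf_eq, h]
      exact L.zero_mem
    have h1 : ∀ y : Dual M, D.indicator (fun _ => (1 : ℂ)) x * F (x, y) - F (x, y) =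
        (-(A.indicator (fun _ => (1 : ℂ)) (S^[t] x) * ((ac S φ α t x m : Circle) : ℂ) *
        (starRingEnd ℂ) (A.indicator (fun _ => (1 : ℂ)) (S^[t'] x) *
          ((ac S φ α t' x m : Circle) : ℂ)))) *
        ((y (cv S φ t x • m - cv S φ t' x • m) : Circle) : ℂ) := by
      intro y
      rw [Set.indicator_of_notMem hx, hF]
      simp only
      rw [TI_aux_prod]
      ring
    rw [integral_congr_ae (Eventually.of_forall h1), integral_const_mul, int_char ν hν _ h0,
      mul_zero]

end H567MM
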