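import Pool.Agent.H567R2.MMF.MA
import Pool.Agent.H567R2.MN.Defs
import Pool.Agent.H567R2.MNF.DS
import Pool.Agent.H567R2.MNF.ML
import Pool.Agent.H567R2.MNF.TA
import Pool.Agent.H567R2.MNF.TI
import Pool.Agent.H567R2.MNF.KI
import Pool.Agent.H567R2.MNF.AP
import Pool.Agent.H567R2.MNF.AI

namespace H567MM

open MeasureTheory Filter Topology H567MM

theorem SA_aux_final (I D f δ ε N : ℝ) (hN : 0 < N) (hε : 0 < ε) (hf : 0 ≤ f)
    (hδ : δ = ε ^ 2 / (4 * (f + 1))) (h1 : I ^ 2 * N ^ 2 ≤ f * D) (h2 : D ≤ δ * N ^ 2 + δ * N ^ 2) : 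
    I < ε := by
  have hN2 : 0 < N ^ 2 := by positivity
  have h3 : I ^ 2 * N ^ 2 ≤ (f * (2 * δ)) * N ^ 2 := by
    calc I ^ 2 * N ^ 2 ≤ f * D := h1
      _ ≤ f * (δ * N ^ 2 + δ * N ^ 2) := mul_le_mul_of_nonneg_left h2 hf
      _ = (f * (2 * δ)) * N ^ 2 := by ring
  have h4 : I ^ 2 ≤ f * (2 * δ) := le_of_mul_le_mul_right h3 hN2
  have h5 : f * (2 * δ) < ε ^ 2 := by
    rw [hδ]
    have : f * (2 * (ε ^ 2 / (4 * (f + 1)))) = (f / (f + 1)) * (ε ^ 2 / 2) := by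
      field_simp
      ring
    rw [this]
    have h6 : f / (f + 1) ≤ 1 := by
      rw [div_le_one (by linarith)]; linarith
    have h7 : 0 < ε ^ 2 := by positivity
    calc (f / (f + 1)) * (ε ^ 2 / 2) ≤ 1 * (ε ^ 2 / 2) := 
          mul_le_mul_of_nonneg_right h6 (by positivity)
      _ < ε ^ 2 := by linarith
  exact lt_of_pow_lt_pow_left₀ 2 hε.le (h4.trans_lt h5)

/-- SA -/
theorem step_a {X R M : Type*} [MeasurableSpace X] (μ : Measure X)
    [IsProbabilityMeasure μ] (S : X → X) (hS : MeasurePreserving S μ μ)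
    [CommRing R] [AddCommGroup M] [Module R M] [Countable M] (φ : X → Rˣ)
    (hφ : ∀ m m' : M, MeasurableSet {x | (φ x : R) • m = m'}) (α : X → Dual M)
    (hα : Measurable α) (ν : Measure (Dual M)) (hν : IsHaarProb ν)
    (hwm : ∀ (A : Set X) (m : M), MeasurableSet A → m ≠ 0 →
      CorrZero (μ.prod ν) (askew S φ α) (ten A m)) (k : ℕ) (L : Submodule R M)
    (hL : PL μ ν S φ α k L) (B : M ⧸ L → Set X) (f : ℕ)
    (hinv : ∀ᵐ x ∂μ, ∀ q, (x ∈ B ((φ x : R) • q) ↔ S x ∈ B q))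
    (hf : ∀ᵐ x ∂μ, {q | x ∈ B q}.encard ≤ f) (A : Fin (k + 1) → Set X)
    (hA : ∀ j, MeasurableSet (A j)) (m : Fin (k + 1) → M) (hm : m ≠ 0)
    (hAB : ∀ j, A j ⊆ B (L.mkQ (m j))) (ε : ℝ) (hε : 0 < ε) :
    ∃ G : ℕ, ∀ n : Fin (k + 1) → ℕ, n 0 = 0 → (∀ j : Fin k, n j.castSucc + G ≤ n j.succ) →
      ‖∫ z, ∏ j, ten (A j) (m j) ((askew S φ α)^[n j] z) ∂(μ.prod ν)‖ < ε := by
  have := hν.1
  have hT := askew_measurePreserving μ S hS φ hφ α hα ν hν
  obtain ⟨j₀, hj₀⟩ : ∃ j, m j ≠ 0 := by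
    by_contra h
    push Not at h
    exact hm (funext h)
  set δ : ℝ := ε ^ 2 / (4 * ((f : ℝ) ^ (k + 1) + 1)) with hδ
  have hδ0 : 0 < δ := by positivity
  obtain ⟨N, hN, hsum⟩ := dsum_small (μ.prod ν) (askew S φ α) hT (fun j => ten (A j) (m j)) 
    (fun j => TM_aux_ten_meas (A j) (hA j) (m j)) (fun j z => TM_aux_ten_le (A j) (m j) z) j₀ 
    (hwm (A j₀) (m j₀) (hA j₀) hj₀) δ hδ0
  -- approximation
  have hmix : ∀ t t' : ℕ, ∃ G : ℕ, ∀ n : Fin (k + 1) → ℕ, n 0 = 0 → 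
      (∀ j : Fin k, n j.castSucc + G ≤ n j.succ) →
      ‖∫ z, ∏ j, th S φ α L (A j) (m j) t t' ((askew S φ α)^[n j] z) ∂(μ.prod ν) - 
        ∏ j, ∫ z, th S φ α L (A j) (m j) t t' z ∂(μ.prod ν)‖ < δ := by
    intro t t'
    refine mix_of_approx (μ.prod ν) (askew S φ α) hT k 
      {g | ∃ (A' : Set X) (m' : M), MeasurableSet A' ∧ m' ∈ L ∧ g = ten A' m'} ?_ ?_ 
      (fun j => th S φ α L (A j) (m j) t t') 
      (fun j => th_meas S hS.measurable φ hφ α hα L (A j) (hA j) (m j) t t') 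
      (fun j z => th_norm S φ α L (A j) (m j) t t' z) ?_ δ hδ0
    · rintro g ⟨A', m', hA', hm', rfl⟩
      exact ⟨TM_aux_ten_meas A' hA' m', fun z => TM_aux_ten_le A' m' z⟩
    · intro g hg ε' hε'
      choose A' m' hA' hm' hgj using hg
      obtain ⟨G, hG⟩ := hL A' m' hA' hm' ε' hε'
      refine ⟨G, fun n h0 hn => ?_⟩
      have := hG n h0 hn
      simp only [hgj]
      exact this
    · intro j ε' hε'
      obtain ⟨N', c, A', m', hA', hm', happ⟩ := 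
        th_approx μ S hS φ hφ α hα ν hν L (A j) (hA j) (m j) t t' ε' hε'
      exact ⟨N', c, fun l => ten (A' l) (m' l), fun l => ⟨A' l, m' l, hA' l, hm' l, rfl⟩, happ⟩
  choose G hG using hmix
  refine ⟨∑ t ∈ Finset.range N, ∑ t' ∈ Finset.range N, G t t', fun n h0 hn => ?_⟩
  have hGle : ∀ t ∈ Finset.range N, ∀ t' ∈ Finset.range N, 
      G t t' ≤ ∑ t ∈ Finset.range N, ∑ t' ∈ Finset.range N, G t t' := by
    intro t ht t' ht'
    refine (Finset.single_le_sum (f := fun t' => G t t') (fun _ _ => Nat.zero_le _) ht').trans ?_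
    exact Finset.single_le_sum (f := fun t => ∑ t' ∈ Finset.range N, G t t') 
      (fun _ _ => Nat.zero_le _) ht
  have herr : ∀ t ∈ Finset.range N, ∀ t' ∈ Finset.range N, 
      ‖∫ z, ∏ j, th S φ α L (A j) (m j) t t' ((askew S φ α)^[n j] z) ∂(μ.prod ν) - 
        ∏ j, ∫ z, ten (A j) (m j) ((askew S φ α)^[t] z) *
          (starRingEnd ℂ) (ten (A j) (m j) ((askew S φ α)^[t'] z)) ∂(μ.prod ν)‖ ≤ δ := by
    intro t ht t' ht'
    have h1 := hG t t' n h0 (fun j => (Nat.add_le_add_left (hGle t ht t' ht') _).trans (hn j))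
    have h2 : ∀ j, ∫ z, th S φ α L (A j) (m j) t t' z ∂(μ.prod ν) = 
        ∫ z, ten (A j) (m j) ((askew S φ α)^[t] z) *
          (starRingEnd ℂ) (ten (A j) (m j) ((askew S φ α)^[t'] z)) ∂(μ.prod ν) := 
      fun j => th_integral μ S hS φ hφ α hα ν hν L (A j) (hA j) (m j) t t'
    simp only [h2] at h1
    exact h1.le
  have hkey := key_ineq μ S hS φ hφ α hα ν hν L B f hinv hf A hA m hAB n N
  have hD : ‖∑ t ∈ Finset.range N, ∑ t' ∈ Finset.range N,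
        ∫ z, ∏ j, th S φ α L (A j) (m j) t t' ((askew S φ α)^[n j] z) ∂(μ.prod ν)‖ ≤ 
      δ * (N : ℝ) ^ 2 + δ * (N : ℝ) ^ 2 := by
    have h3 : ∑ t ∈ Finset.range N, ∑ t' ∈ Finset.range N,
        ∫ z, ∏ j, th S φ α L (A j) (m j) t t' ((askew S φ α)^[n j] z) ∂(μ.prod ν) = 
        (∑ t ∈ Finset.range N, ∑ t' ∈ Finset.range N, 
          (∫ z, ∏ j, th S φ α L (A j) (m j) t t' ((askew S φ α)^[n j] z) ∂(μ.prod ν) - 
          ∏ j, ∫ z, ten (A j) (m j) ((askew S φ α)^[t] z) *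
          (starRingEnd ℂ) (ten (A j) (m j) ((askew S φ α)^[t'] z)) ∂(μ.prod ν))) + 
        ∑ t ∈ Finset.range N, ∑ t' ∈ Finset.range N, 
          ∏ j, ∫ z, ten (A j) (m j) ((askew S φ α)^[t] z) *
          (starRingEnd ℂ) (ten (A j) (m j) ((askew S φ α)^[t'] z)) ∂(μ.prod ν) := by
      rw [← Finset.sum_add_distrib]
      refine Finset.sum_congr rfl fun t _ => ?_
      rw [← Finset.sum_add_distrib]
      refine Finset.sum_congr rfl fun t' _ => ?_
      ring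
    rw [h3]
    refine (norm_add_le _ _).trans (add_le_add ?_ hsum)
    calc _ ≤ ∑ t ∈ Finset.range N, ∑ t' ∈ Finset.range N, δ := by
          refine norm_sum_le_of_le _ fun t ht => ?_
          exact norm_sum_le_of_le _ fun t' ht' => herr t ht t' ht'
      _ = δ * (N : ℝ) ^ 2 := by
          simp only [Finset.sum_const, Finset.card_range, nsmul_eq_mul]
          ring
  exact SA_aux_final _ _ ((f : ℝ) ^ (k + 1)) δ ε N (by exact_mod_cast hN) hε (by positivity)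
    hδ hkey hD

end H567MM
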