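import Pool.Agent.H567R2.MMF.MA
import Pool.Agent.H567R2.MN.Defs
import Pool.Agent.H567R2.MNF.SA
import Pool.Agent.H567R2.MNF.RM
import Pool.Agent.H567R2.MNF.AI
import Pool.Agent.H567R2.MNF.AP

namespace H567MM

open MeasureTheory Filter Topology

theorem SB_aux_prod {ι : Type*} (s : Finset ι) (a b : ι → ℂ) (ha : ∀ i, ‖a i‖ ≤ 1)
    (hb : ∀ i, ‖b i‖ ≤ 1) : ‖∏ i ∈ s, a i - ∏ i ∈ s, b i‖ ≤ ∑ i ∈ s, ‖a i - b i‖ := by
  classical
  induction s using Finset.induction_on with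
  | empty => simp
  | insert i s hi ih =>
    rw [Finset.prod_insert hi, Finset.prod_insert hi, Finset.sum_insert hi]
    have e : a i * ∏ x ∈ s, a x - b i * ∏ x ∈ s, b x =
        (a i - b i) * ∏ x ∈ s, a x + b i * (∏ x ∈ s, a x - ∏ x ∈ s, b x) := by ring
    rw [e]
    have h1 : ‖∏ x ∈ s, a x‖ ≤ 1 := by
      rw [norm_prod]
      exact Finset.prod_le_one (fun x _ => norm_nonneg _) (fun x _ => ha x)
    calc ‖(a i - b i) * ∏ x ∈ s, a x + b i * (∏ x ∈ s, a x - ∏ x ∈ s, b x)‖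
        ≤ ‖(a i - b i) * ∏ x ∈ s, a x‖ + ‖b i * (∏ x ∈ s, a x - ∏ x ∈ s, b x)‖ := norm_add_le _ _
      _ = ‖a i - b i‖ * ‖∏ x ∈ s, a x‖ + ‖b i‖ * ‖∏ x ∈ s, a x - ∏ x ∈ s, b x‖ := by
          rw [norm_mul, norm_mul]
      _ ≤ ‖a i - b i‖ * 1 + 1 * ‖∏ x ∈ s, a x - ∏ x ∈ s, b x‖ := by
          gcongr
          exact hb i
      _ ≤ ‖a i - b i‖ + ∑ x ∈ s, ‖a x - b x‖ := by linarith

theorem SB_aux_diff {X M : Type*} [AddCommGroup M] (A A' : Set X) (h : A' ⊆ A) (m : M)
    (z : X × Dual M) : ‖ten A m z - ten A' m z‖ =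
      (A \ A').indicator (fun _ => (1 : ℝ)) z.1 := by
  unfold ten
  by_cases h1 : z.1 ∈ A'
  · have h2 := h h1
    simp [Set.indicator, h1, h2]
  · by_cases h2 : z.1 ∈ A
    · simp [Set.indicator, h1, h2, Circle.norm_coe]
    · simp [Set.indicator, h1, h2]

theorem step {X R M : Type*} [MeasurableSpace X] (μ : Measure X)
    [IsProbabilityMeasure μ] (S : X → X) (hS : MeasurePreserving S μ μ)
    [CommRing R] [AddCommGroup M] [Module R M] [Countable M] (φ : X → Rˣ)
    (hφ : ∀ m m' : M, MeasurableSet {x | (φ x : R) • m = m'}) (α : X → Dual M)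
    (hα : Measurable α) (ν : Measure (Dual M)) (hν : IsHaarProb ν)
    (hwm : ∀ (A : Set X) (m : M), MeasurableSet A → m ≠ 0 →
      CorrZero (μ.prod ν) (askew S φ α) (ten A m)) (k : ℕ) (L : Submodule R M)
    (hL : PL μ ν S φ α k L) (m₁ : M) (hr : Rec μ S φ (L.mkQ m₁)) :
    PL μ ν S φ α k (L ⊔ Submodule.span R {m₁}) := by
  intro A m hA hm ε hε
  have hνp : IsProbabilityMeasure ν := hν.1
  have : Countable (M ⧸ L) := (Submodule.mkQ_surjective L).countable
  by_cases hm0 : m = 0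
  · subst hm0
    exact hL A 0 hA (fun j => L.zero_mem) ε hε
  have hprod : ∏ j, ∫ z, ten (A j) (m j) z ∂(μ.prod ν) = 0 := by
    obtain ⟨j, hj⟩ := Function.ne_iff.mp hm0
    exact Finset.prod_eq_zero (Finset.mem_univ j)
      (ten_integral_ne μ ν hν (A j) (hA j) (m j) hj)
  have hrec : ∀ j, Rec μ S φ (L.mkQ (m j)) := by
    intro j
    obtain ⟨y, hy, z, hz, hyz⟩ := Submodule.mem_sup.mp (hm j)
    obtain ⟨r, hr'⟩ := Submodule.mem_span_singleton.mp hz
    have : L.mkQ (m j) = r • L.mkQ m₁ := by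
      rw [← hyz, ← hr', map_add, map_smul]
      have : L.mkQ y = 0 := by simpa using hy
      rw [this, zero_add]
    rw [this]
    exact rec_smul μ S φ _ r hr
  have hδ : 0 < ε / (4 * ((k : ℝ) + 1)) := by positivity
  choose B f hBm hBinv hBf hBμ using fun j => hrec j _ hδ
  have hinv : ∀ᵐ x ∂μ, ∀ q, (x ∈ (⋃ j, B j ((φ x : R) • q)) ↔ S x ∈ ⋃ j, B j q) := by
    filter_upwards [ae_all_iff.mpr hBinv] with x hx q
    simp only [Set.mem_iUnion]
    exact exists_congr fun j => hx j q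
  have hf : ∀ᵐ x ∂μ, {q | x ∈ ⋃ j, B j q}.encard ≤ ((∑ j, f j : ℕ) : ℕ∞) := by
    filter_upwards [ae_all_iff.mpr hBf] with x hx
    have e : {q | x ∈ ⋃ j, B j q} = ⋃ j, {q | x ∈ B j q} := by
      ext q; simp
    rw [e]
    calc (⋃ j, {q | x ∈ B j q}).encard ≤ ∑ j, {q | x ∈ B j q}.encard :=
          Set.encard_iUnion_le_of_fintype _
      _ ≤ ∑ j, (f j : ℕ∞) := Finset.sum_le_sum fun j _ => hx j
      _ = ((∑ j, f j : ℕ) : ℕ∞) := by push_cast; rfl
  set A' : Fin (k + 1) → Set X := fun j => A j ∩ ⋃ i, B i (L.mkQ (m j)) with hA'def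
  have hA' : ∀ j, MeasurableSet (A' j) := fun j =>
    (hA j).inter (MeasurableSet.iUnion fun i => hBm i _)
  have hAA' : ∀ j, A' j ⊆ A j := fun j => Set.inter_subset_left
  obtain ⟨G, hG⟩ := step_a μ S hS φ hφ α hα ν hν hwm k L hL (fun q => ⋃ j, B j q) (∑ j, f j)
    hinv hf A' hA' m hm0 (fun j => Set.inter_subset_right) (ε / 2) (by positivity)
  refine ⟨G, fun n h0 hn => ?_⟩
  rw [hprod, sub_zero]
  have hT := askew_measurePreserving μ S hS φ hφ α hα ν hν
  have hmeasT : ∀ (C : Set X) (hC : MeasurableSet C) (m' : M) (t : ℕ),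
      Measurable fun z => ten C m' ((askew S φ α)^[t] z) := fun C hC m' t =>
    (FF_ten_measurable C hC m').comp (hT.iterate t).measurable
  have hint : ∀ C : Fin (k + 1) → Set X, (∀ j, MeasurableSet (C j)) →
      Integrable (fun z => ∏ j, ten (C j) (m j) ((askew S φ α)^[n j] z)) (μ.prod ν) := by
    intro C hC
    refine Integrable.of_bound (C := 1)
      (Finset.measurable_fun_prod _ fun j _ => hmeasT (C j) (hC j) (m j) (n j)).aestronglyMeasurable
      (Eventually.of_forall fun z => ?_)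
    rw [norm_prod]
    exact Finset.prod_le_one (fun _ _ => norm_nonneg _) (fun j _ => FF_ten_norm _ _ _)
  have hdint : ∀ j, Integrable (fun z => ((A j \ A' j).indicator (fun _ => (1 : ℝ))
      ((askew S φ α)^[n j] z).1)) (μ.prod ν) := by
    intro j
    refine Integrable.of_bound (C := 1) ?_ (Eventually.of_forall fun z => ?_)
    · exact (((measurable_const.indicator ((hA j).diff (hA' j))).comp measurable_fst).comp
        (hT.iterate (n j)).measurable).aestronglyMeasurable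
    · by_cases h : ((askew S φ α)^[n j] z).1 ∈ A j \ A' j
      · rw [Set.indicator_of_mem h]; simp
      · rw [Set.indicator_of_notMem h]; simp
  have hdval : ∀ j, ∫ z, ((A j \ A' j).indicator (fun _ => (1 : ℝ))
      ((askew S φ α)^[n j] z).1) ∂(μ.prod ν) ≤ ε / (4 * ((k : ℝ) + 1)) := by
    intro j
    have hmp : MeasurePreserving (fun z => ((askew S φ α)^[n j] z).1) (μ.prod ν) μ :=
      (measurePreserving_fst (μ := μ) (ν := ν)).comp (hT.iterate (n j))
    have h1 : ∫ z, ((A j \ A' j).indicator (fun _ => (1 : ℝ))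
      ((askew S φ α)^[n j] z).1) ∂(μ.prod ν) = μ.real (A j \ A' j) := by
      have h2 := integral_map (μ := μ.prod ν) hmp.measurable.aemeasurable
        (f := (A j \ A' j).indicator (fun _ => (1 : ℝ)))
        ((measurable_const.indicator ((hA j).diff (hA' j))).aestronglyMeasurable)
      rw [← h2, hmp.map_eq, integral_indicator_const _ ((hA j).diff (hA' j))]
      simp
    rw [h1]
    refine (measureReal_mono ?_ (by finiteness)).trans (hBμ j).le
    intro x hx hxB
    exact hx.2 ⟨hx.1, Set.mem_iUnion.mpr ⟨j, hxB⟩⟩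
  have hdiff : ‖∫ z, ∏ j, ten (A j) (m j) ((askew S φ α)^[n j] z) ∂(μ.prod ν) -
      ∫ z, ∏ j, ten (A' j) (m j) ((askew S φ α)^[n j] z) ∂(μ.prod ν)‖ ≤ ε / 4 := by
    rw [← integral_sub (hint A hA) (hint A' hA')]
    calc ‖∫ z, (∏ j, ten (A j) (m j) ((askew S φ α)^[n j] z) -
          ∏ j, ten (A' j) (m j) ((askew S φ α)^[n j] z)) ∂(μ.prod ν)‖
        ≤ ∫ z, ∑ j, ((A j \ A' j).indicator (fun _ => (1 : ℝ))
            ((askew S φ α)^[n j] z).1) ∂(μ.prod ν) := by
          refine norm_integral_le_of_norm_le (integrable_finsetSum _ fun j _ => hdint j)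
            (Eventually.of_forall fun z => ?_)
          refine (SB_aux_prod Finset.univ _ _ (fun j => FF_ten_norm _ _ _)
            (fun j => FF_ten_norm _ _ _)).trans (le_of_eq ?_)
          exact Finset.sum_congr rfl fun j _ => SB_aux_diff _ _ (hAA' j) _ _
      _ = ∑ j, ∫ z, ((A j \ A' j).indicator (fun _ => (1 : ℝ))
            ((askew S φ α)^[n j] z).1) ∂(μ.prod ν) := integral_finsetSum _ fun j _ => hdint j
      _ ≤ ∑ _j : Fin (k + 1), ε / (4 * ((k : ℝ) + 1)) := Finset.sum_le_sum fun j _ => hdval j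
      _ = ε / 4 := by
          rw [Finset.sum_const, Finset.card_univ, Fintype.card_fin, nsmul_eq_mul]
          push_cast
          field_simp
  have h3 := hG n h0 hn
  calc ‖∫ z, ∏ j, ten (A j) (m j) ((askew S φ α)^[n j] z) ∂(μ.prod ν)‖
      = ‖(∫ z, ∏ j, ten (A j) (m j) ((askew S φ α)^[n j] z) ∂(μ.prod ν) -
      ∫ z, ∏ j, ten (A' j) (m j) ((askew S φ α)^[n j] z) ∂(μ.prod ν)) +
      ∫ z, ∏ j, ten (A' j) (m j) ((askew S φ α)^[n j] z) ∂(μ.prod ν)‖ := by rw [sub_add_cancel]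
    _ ≤ _ := norm_add_le _ _
    _ < ε / 4 + ε / 2 := by linarith
    _ < ε := by linarith

end H567MM
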