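import Pool.Agent.H567R2.MMF.MA
import Pool.Agent.H567R2.MN.Defs
import Pool.Agent.H567R2.MNF.CZ
import Pool.Agent.H567R2.MNF.AI
import Pool.Agent.H567R2.MNF.AP
import Pool.Agent.H567R2.MNF.PB
import Pool.Agent.H567R2.MNF.ZO
import Pool.Agent.H567R2.MNF.RC
import Pool.Agent.H567R2.MNF.SB
import Pool.Agent.H567R2.MNF.FM
import Pool.Agent.H567R2.MNF.TE

/-! M2: assembly of the result. -/

namespace H567MM

open MeasureTheory Filter Topology

theorem M2_aux_meas {X R M : Type*} [MeasurableSpace X] [CommRing R] [AddCommGroup M]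
    [Module R M] [Countable M] (φ : X → Rˣ)
    (hφ : ∀ m m' : M, MeasurableSet {x | (φ x : R) • m = m'}) (L : Submodule R M)
    (q q' : M ⧸ L) : MeasurableSet {x | (φ x : R) • q = q'} := by
  obtain ⟨m, rfl⟩ := L.mkQ_surjective q
  obtain ⟨m', rfl⟩ := L.mkQ_surjective q'
  have e : {x | (φ x : R) • L.mkQ m = L.mkQ m'} =
      ⋃ m'' : {m'' : M // m'' - m' ∈ L}, {x | (φ x : R) • m = m''.1} := by
    ext x
    simp only [Set.mem_setOf_eq, Set.mem_iUnion]
    rw [← map_smul, Submodule.mkQ_apply, Submodule.mkQ_apply, Submodule.Quotient.eq]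
    constructor
    · intro h
      exact ⟨⟨_, h⟩, rfl⟩
    · rintro ⟨⟨m'', h⟩, h'⟩
      simp only at h'
      rw [h']
      exact h
  rw [e]
  exact MeasurableSet.iUnion fun m'' => hφ m m''.1

theorem M2_aux_trans {X R M : Type*} [MeasurableSpace X] (μ : Measure X)
    (S : X → X) [CommRing R] [AddCommGroup M] [Module R M] (φ : X → Rˣ)
    (h : ∀ m : M, m ≠ 0 → Trans μ S φ m) (q : M ⧸ (⊥ : Submodule R M)) (hq : q ≠ 0) :
    Trans μ S φ q := by
  obtain ⟨m, rfl⟩ := (⊥ : Submodule R M).mkQ_surjective q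
  have hm : m ≠ 0 := by
    rintro rfl
    exact hq (map_zero _)
  intro q' c hc
  obtain ⟨m', rfl⟩ := (⊥ : Submodule R M).mkQ_surjective q'
  obtain ⟨N₀, hN⟩ := h m hm m' c hc
  refine ⟨N₀, fun N hN' => ?_⟩
  have e : ∀ n, {x | cv S φ n x • (⊥ : Submodule R M).mkQ m = (⊥ : Submodule R M).mkQ m'} =
      {x | cv S φ n x • m = m'} := by
    intro n
    ext x
    simp only [Set.mem_setOf_eq]
    rw [← map_smul, Submodule.mkQ_apply, Submodule.mkQ_apply, Submodule.Quotient.eq,
      Submodule.mem_bot, sub_eq_zero]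
  simp only [e]
  exact hN N hN'

theorem main2 {X R M : Type*} [MeasurableSpace X] (μ : Measure X)
    [IsProbabilityMeasure μ] (S : X → X) (hS : MeasurePreserving S μ μ)
    [CommRing R] [AddCommGroup M] [Module R M] [Countable M] (φ : X → Rˣ)
    (hφ : ∀ m m' : M, MeasurableSet {x | (φ x : R) • m = m'}) (α : X → Dual M)
    (hα : Measurable α) (ν : Measure (Dual M)) (hν : IsHaarProb ν) (k : ℕ)
    (hk : MixOrd μ S k)
    (h : Ergodic (Prod.map (askew S φ α) (askew S φ α)) ((μ.prod ν).prod (μ.prod ν)) ∨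
      Ergodic (skew (M := M) S φ) (μ.prod ν)) :
    MixOrd (μ.prod ν) (askew S φ α) k := by
  have hνp : IsProbabilityMeasure ν := hν.1
  rcases k with _ | k
  · exact mixOrd_zero _ _
  have hmix : MixOrd μ S 1 := mixOrd_one μ S k hk
  have herg : Ergodic S μ := ergodic_of_mix μ S hS hmix
  have hT : MeasurePreserving (askew S φ α) (μ.prod ν) (μ.prod ν) :=
    askew_measurePreserving μ S hS φ hφ α hα ν hν
  have hbot : PL μ ν S φ α (k + 1) (⊥ : Submodule R M) :=
    PL_bot μ S hS φ α ν hν (k + 1) hk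
  have htop : PL μ ν S φ α (k + 1) (⊤ : Submodule R M) := by
    rcases h with h | h
    · have hwm : ∀ (A : Set X) (m : M), MeasurableSet A → m ≠ 0 →
          CorrZero (μ.prod ν) (askew S φ α) (ten A m) := fun A m hA hm =>
        corr_zero_of_wm (μ.prod ν) (askew S φ α) hT h (ten A m) (FF_ten_measurable A hA m)
          (FF_ten_norm A m) (ten_integral_ne μ ν hν A hA m hm)
      obtain ⟨L, hL, hmax⟩ := exists_max μ S φ α ν (k + 1) hbot
      have hc : Countable (M ⧸ L) := L.mkQ_surjective.countable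
      refine PL_top μ S hS hmix φ hφ α hα ν hν (k + 1) L hL fun q hq => ?_
      by_contra hcon
      have hrec := rec_of_not_trans μ S herg φ (M2_aux_meas φ hφ L) q hcon
      obtain ⟨m₁, rfl⟩ := L.mkQ_surjective q
      have hm₁ : m₁ ∉ L := by
        intro hm
        exact hq (by rwa [Submodule.mkQ_apply, Submodule.Quotient.mk_eq_zero])
      refine hmax _ ?_ (step μ S hS φ hφ α hα ν hν hwm (k + 1) L hL m₁ hrec)
      refine lt_of_le_of_ne le_sup_left fun he => hm₁ ?_
      rw [he]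
      exact Submodule.mem_sup_right (Submodule.mem_span_singleton_self m₁)
    · exact PL_top μ S hS hmix φ hφ α hα ν hν (k + 1) ⊥ hbot
        (M2_aux_trans μ S φ (fun m hm => trans_of_ergodic μ S hS φ hφ ν hν h m hm))
  exact mix_of_ten μ ν (askew S φ α) hT (k + 1) fun A m hA ε hε =>
    htop A m hA (fun _ => Submodule.mem_top) ε hε

end H567MM
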